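import Pool.Agent.K6.H45.MV.Mom

set_option autoImplicit false
set_option linter.unusedSectionVars false

/-! Averages over points with restricted digits. -/

namespace Pool.Agent.K6.H45.MV
open Finset
open Pool.Agent.H807R2.Dav
open Pool.Agent.TH872.Sq

/-- The integers below `b ^ k` whose `i`-th digit in base `b` lies in `D i`, for all `i < k`. -/
def RD (b : ℕ) (D : ℕ → Finset ℕ) (k : ℕ) : Finset ℕ :=
  (range (b ^ k)).filter (fun n : ℕ => ∀ i < k, n / b ^ i % b ∈ D i)

/-- the law of a digit -/
noncomputable def law (D : ℕ → Finset ℕ) (k i a : ℕ) : ℝ := if i < k then (if a ∈ D i then 1 / ((D i).card : ℝ) else 0) else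
  (if a < 2 then 1 / 2 else 0)

lemma dig_law (b : ℕ) (hb : 2 ≤ b) (D : ℕ → Finset ℕ) (k : ℕ) (hD : ∀ i < k, D i ⊆ range b ∧ 2 ≤ (D i).card) : Dig b (1 / 2) (law D k) := by
  refine ⟨fun i a => ?_, fun i => ?_, fun i a => ?_⟩
  · unfold law
    split_ifs <;> positivity
  · unfold law
    split_ifs with h
    · obtain ⟨h1, h2⟩ := hD i h
      rw [← sum_filter]
      have h3 : (range b).filter (fun a => a ∈ D i) = D i := by
        ext a
        rw [mem_filter]
        exact ⟨fun h => h.2, fun h => ⟨h1 h, h⟩⟩
      rw [h3, sum_const, nsmul_eq_mul]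
      have : (0 : ℝ) < (D i).card := by exact_mod_cast (by omega : 0 < (D i).card)
      field_simp
    · rw [← sum_filter]
      have h3 : (range b).filter (fun a => a < 2) = range 2 := by
        ext a
        rw [mem_filter, mem_range, mem_range]
        omega
      rw [h3, sum_const, card_range, nsmul_eq_mul]
      norm_num
  · unfold law
    split_ifs with h h'
    · obtain ⟨h1, h2⟩ := hD i h
      have : (2 : ℝ) ≤ (D i).card := by exact_mod_cast h2
      have h3 : 1 / ((D i).card : ℝ) ≤ 1 / 2 := one_div_le_one_div_of_le (by norm_num) this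
      linarith
    all_goals norm_num

lemma P_law (b : ℕ) (hb : 2 ≤ b) (D : ℕ → Finset ℕ) (k : ℕ) (hD : ∀ i < k, D i ⊆ range b ∧ 2 ≤ (D i).card) :
    (∀ n ∈ range (b ^ k), P b (law D k) 0 k n = if n ∈ RD b D k then 1 / ((RD b D k).card : ℝ) else 0) ∧ (0 : ℝ) < (RD b D k).card := by
  classical
  obtain ⟨C, hC⟩ : ∃ C : ℝ, C = ∏ i ∈ range k, (1 / ((D i).card : ℝ)) := ⟨_, rfl⟩
  have h1 : ∀ n ∈ range (b ^ k), P b (law D k) 0 k n = if n ∈ RD b D k then C else 0 := by
    intro n hn
    unfold P
    by_cases h : n ∈ RD b D k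
    · rw [if_pos h, hC]
      unfold RD at h
      rw [mem_filter] at h
      apply prod_congr rfl
      intro i hi
      rw [mem_range] at hi
      unfold law
      rw [zero_add, if_pos hi, if_pos (h.2 i hi)]
    · rw [if_neg h]
      unfold RD at h
      rw [mem_filter] at h
      have h2 : ∃ i < k, n / b ^ i % b ∉ D i := by
        by_contra h3
        push Not at h3
        exact h ⟨hn, h3⟩
      obtain ⟨i, hi, h3⟩ := h2
      apply prod_eq_zero (mem_range.2 hi)
      unfold law
      rw [zero_add, if_pos hi, if_neg h3]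
  have h2 := P_sum (by omega : 0 < b) (dig_law b hb D k hD) 0 k
  rw [sum_congr rfl h1, ← sum_filter, sum_const, nsmul_eq_mul] at h2
  have h3 : (range (b ^ k)).filter (fun n => n ∈ RD b D k) = RD b D k := by
    ext n
    rw [mem_filter]
    refine ⟨fun h => h.2, fun h => ⟨?_, h⟩⟩
    unfold RD at h
    exact (mem_filter.1 h).1
  rw [h3] at h2
  have h4 : ((RD b D k).card : ℝ) ≠ 0 := by
    intro h5
    rw [h5, zero_mul] at h2
    exact zero_ne_one h2
  refine ⟨fun n hn => ?_, lt_of_le_of_ne (Nat.cast_nonneg _) h4.symm⟩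
  rw [h1 n hn]
  split_ifs
  · field_simp
    linarith
  · rfl

variable {σ : Type} [DecidableEq σ] [Fintype σ]

lemma avg_list (b : ℕ) (hb : 2 ≤ b) (k : ℕ) (D : σ → ℕ → Finset ℕ) (hD : ∀ j, ∀ i < k, D j i ⊆ range b ∧ 2 ≤ (D j i).card)
    (js : List σ) (hn : js.Nodup) : ∀ F : (σ → ℤ) → ℂ,
    ((js.map (fun j => ((RD b (D j) k).card : ℝ))).prod : ℝ) • Es b (fun j => law (D j) k) (js.flatMap (fun j => blk j 0 k)) F =
      ∑ p ∈ Fintype.piFinset (fun i => if i ∈ js then RD b (D i) k else {0}), F (fun i => (p i : ℤ)) := by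
  classical
  induction js with
  | nil =>
    intro F
    simp only [List.map_nil, List.prod_nil, List.flatMap_nil, Es_nil, one_smul, List.not_mem_nil, if_false]
    rw [Fintype.piFinset_singleton (fun _ => 0), sum_singleton]
    rfl
  | cons j js ih =>
    intro F
    rw [List.nodup_cons] at hn
    obtain ⟨hP, hcard⟩ := P_law b hb (D j) k (hD j)
    obtain ⟨Z, hZ⟩ : ∃ Z : ℝ, Z = ((RD b (D j) k).card : ℝ) := ⟨_, rfl⟩
    rw [← hZ] at hP hcard
    rw [List.map_cons, List.prod_cons, List.flatMap_cons, Es_append, Es_blk b (by omega), ← hZ]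
    have e1 : ∀ u ∈ range (b ^ k), P b (law (D j) k) 0 k u • Es b (fun j => law (D j) k) (js.flatMap (fun j => blk j 0 k))
        (fun y => F (sg j ((u : ℤ) * (b : ℤ) ^ 0) + y)) =
        if u ∈ RD b (D j) k then (1 / Z) • Es b (fun j => law (D j) k) (js.flatMap (fun j => blk j 0 k)) (fun y => F (sg j (u : ℤ) + y)) else 0 := by
      intro u hu
      rw [hP u hu]
      split_ifs
      · rw [pow_zero, mul_one]
      · rw [zero_smul]
    rw [sum_congr rfl e1, ← sum_filter]
    have e2 : (range (b ^ k)).filter (fun u => u ∈ RD b (D j) k) = RD b (D j) k := by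
      ext u
      rw [mem_filter]
      refine ⟨fun h => h.2, fun h => ⟨?_, h⟩⟩
      unfold RD at h
      exact (mem_filter.1 h).1
    rw [e2, ← smul_sum, smul_smul]
    have e3 : Z * (js.map (fun j => ((RD b (D j) k).card : ℝ))).prod * (1 / Z) = (js.map (fun j => ((RD b (D j) k).card : ℝ))).prod := by
      field_simp
    rw [e3, smul_sum]
    have e4 : ∀ u ∈ RD b (D j) k, (js.map (fun j => ((RD b (D j) k).card : ℝ))).prod •
        Es b (fun j => law (D j) k) (js.flatMap (fun j => blk j 0 k)) (fun y => F (sg j (u : ℤ) + y)) =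
        ∑ p ∈ Fintype.piFinset (fun i => if i ∈ js then RD b (D i) k else {0}), F (sg j (u : ℤ) + fun i => (p i : ℤ)) := by
      intro u _
      exact ih hn.2 (fun y => F (sg j (u : ℤ) + y))
    rw [sum_congr rfl e4, ← sum_product']
    apply sum_nbij' (i := fun q => Function.update q.2 j q.1) (j := fun p => (p j, Function.update p j 0))
    · intro q hq
      rw [mem_product, Fintype.mem_piFinset] at hq
      rw [Fintype.mem_piFinset]
      intro i
      by_cases h : i = j
      · subst h
        rw [Function.update_self, if_pos List.mem_cons_self]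
        exact hq.1
      · rw [Function.update_of_ne h]
        have := hq.2 i
        simp only [List.mem_cons, h, false_or]
        exact this
    · intro p hp
      rw [Fintype.mem_piFinset] at hp
      rw [mem_product, Fintype.mem_piFinset]
      refine ⟨?_, fun i => ?_⟩
      · have := hp j
        rwa [if_pos List.mem_cons_self] at this
      · by_cases h : i = j
        · subst h
          simp only [Function.update_self]
          rw [if_neg hn.1, mem_singleton]
        · simp only [Function.update_of_ne h]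
          have := hp i
          simp only [List.mem_cons, h, false_or] at this
          exact this
    · intro q hq
      rw [mem_product, Fintype.mem_piFinset] at hq
      have h1 := hq.2 j
      rw [if_neg hn.1, mem_singleton] at h1
      ext
      · simp
      · simp only [Function.update_idem]
        rw [← h1, Function.update_eq_self]
    · intro p _
      simp
    · intro q hq
      rw [mem_product, Fintype.mem_piFinset] at hq
      have h1 := hq.2 j
      rw [if_neg hn.1, mem_singleton] at h1
      congr 1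
      funext i
      by_cases h : i = j
      · subst h
        simp [sg, h1]
      · simp [sg, Pi.single_eq_of_ne h, Function.update_of_ne h]

/-- The points all of whose coordinates have restricted digits. -/
def Pts (b : ℕ) (D : σ → ℕ → Finset ℕ) (k : ℕ) : Finset (σ → ℕ) := Fintype.piFinset (fun j => RD b (D j) k)

/-- the average over the points -/
theorem avg (b : ℕ) (hb : 2 ≤ b) (k : ℕ) (D : σ → ℕ → Finset ℕ) (hD : ∀ j, ∀ i < k, D j i ⊆ range b ∧ 2 ≤ (D j i).card)
    (F : (σ → ℤ) → ℂ) :
    ∑ p ∈ Pts b D k, F (fun i => (p i : ℤ)) = ((Pts b D k).card : ℝ) • Es b (fun j => law (D j) k) (full σ k) F := by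
  have h := avg_list b hb k D hD (univ : Finset σ).toList (nodup_toList _) F
  have e1 : (fun i => if i ∈ (univ : Finset σ).toList then RD b (D i) k else {0}) = fun i => RD b (D i) k := by
    funext i
    rw [if_pos (by simp)]
  rw [e1] at h
  unfold Pts full
  rw [← h]
  congr 1
  rw [prod_map_toList, Fintype.card_piFinset]
  push_cast
  rfl

lemma Pts_pos (b : ℕ) (hb : 2 ≤ b) (k : ℕ) (D : σ → ℕ → Finset ℕ) (hD : ∀ j, ∀ i < k, D j i ⊆ range b ∧ 2 ≤ (D j i).card) :
    (0 : ℝ) < (Pts b D k).card := by
  unfold Pts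
  rw [Fintype.card_piFinset]
  push_cast
  apply prod_pos
  intro j _
  exact (P_law b hb (D j) k (hD j)).2

end Pool.Agent.K6.H45.MV
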