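import Pool.Agent.K6.H45.MV.Weyl

set_option autoImplicit false
set_option linter.unusedSectionVars false

/-! The iterated differences of a polynomial in several variables. -/

namespace Pool.Agent.K6.H45.MV
open Finset

variable {σ : Type} [DecidableEq σ]

lemma PD_add (l : List σ) (A B : ℝ) (g h : (σ → ℤ) → ℝ) (hg : PD l A g) (hh : PD l B h) : PD l (A + B) (fun x => g x + h x) := by
  induction l generalizing A B g h with
  | nil => intro x; simp only; rw [hg x, hh x]
  | cons j l ih =>
    intro t
    have h1 := ih _ _ _ _ (hg t) (hh t)
    simp only at h1 ⊢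
    have e : (fun x => g (sg j t + x) + h (sg j t + x) - (g x + h x)) = (fun x => (g (sg j t + x) - g x) + (h (sg j t + x) - h x)) := by
      funext x
      ring
    rw [e, add_mul]
    exact h1

lemma PD_zero (l : List σ) : PD l 0 (fun _ => (0 : ℝ)) := by
  induction l with
  | nil => exact fun _ => rfl
  | cons j l ih =>
    intro t
    simp only [sub_self, zero_mul]
    exact ih

lemma PD_mulc (l : List σ) (A θ : ℝ) (g : (σ → ℤ) → ℝ) (h : PD l A g) : PD l (θ * A) (fun x => θ * g x) := by
  induction l generalizing A g with
  | nil => intro x; simp only; rw [h x]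
  | cons j l ih =>
    intro t
    have h1 := ih _ _ (h t)
    simp only at h1 ⊢
    have e : (fun x => θ * g (sg j t + x) - θ * g x) = (fun x => θ * (g (sg j t + x) - g x)) := by
      funext x
      ring
    rw [e, mul_assoc]
    exact h1

lemma PD_sum (l : List σ) {κ : Type*} (I : Finset κ) (c A : κ → ℝ) (g : κ → (σ → ℤ) → ℝ) (h : ∀ i ∈ I, PD l (A i) (g i)) :
    PD l (∑ i ∈ I, c i * A i) (fun x => ∑ i ∈ I, c i * g i x) := by
  classical
  induction I using Finset.induction_on with
  | empty => simp only [sum_empty]; exact PD_zero l
  | insert i I hi ih =>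
    simp only [sum_insert hi]
    exact PD_add l _ _ _ _ (PD_mulc l _ _ _ (h i (mem_insert_self i I))) (ih fun j hj => h j (mem_insert_of_mem hj))

variable [Fintype σ]

/-- the leading constant of a monomial in the directions of a list -/
noncomputable def lc (l : List σ) (m : σ → ℕ) : ℝ := by
  classical exact if ∀ i, m i = l.count i then ((∏ i, (m i).factorial : ℕ) : ℝ) else 0

lemma sum_count (l : List σ) : ∑ i, l.count i = l.length := by
  induction l with
  | nil => simp
  | cons j l ih =>
    simp only [List.count_cons, List.length_cons, sum_add_distrib, ih]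
    congr 1
    simp

lemma mono_PD (l : List σ) : ∀ m : σ → ℕ, ∑ i, m i ≤ l.length → PD l (lc l m) (fun x => ∏ i, (x i : ℝ) ^ m i) := by
  classical
  induction l with
  | nil =>
    intro m hm x
    rw [List.length_nil, Nat.le_zero, sum_eq_zero_iff] at hm
    have h0 : ∀ i, m i = 0 := fun i => hm i (mem_univ i)
    unfold lc
    simp [h0]
  | cons j l ih =>
    intro m hm h
    obtain ⟨R, hR⟩ : ∃ R : (σ → ℤ) → ℝ, R = fun x => ∏ i ∈ univ.erase j, (x i : ℝ) ^ m i := ⟨_, rfl⟩
    have e1 : ∀ x : σ → ℤ, ∏ i, (x i : ℝ) ^ m i = (x j : ℝ) ^ m j * R x := by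
      intro x
      rw [hR, ← mul_prod_erase univ _ (mem_univ j)]
    have e2 : ∀ x : σ → ℤ, ∏ i, (((sg j h + x) i : ℤ) : ℝ) ^ m i = ((h : ℝ) + x j) ^ m j * R x := by
      intro x
      rw [← mul_prod_erase univ _ (mem_univ j), hR]
      congr 1
      · simp [sg]
      · apply prod_congr rfl
        intro i hi
        rw [mem_erase] at hi
        simp [sg, Pi.single_eq_of_ne hi.1]
    have e3 : ∀ (x : σ → ℤ) (t : ℕ), ∏ i, (x i : ℝ) ^ (Function.update m j t) i = (x j : ℝ) ^ t * R x := by
      intro x t
      rw [← mul_prod_erase univ _ (mem_univ j), hR, Function.update_self]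
      congr 1
      apply prod_congr rfl
      intro i hi
      rw [mem_erase] at hi
      rw [Function.update_of_ne hi.1]
    obtain ⟨c, hc⟩ : ∃ c : ℕ → ℝ, c = fun t => ((m j).choose t : ℝ) * (h : ℝ) ^ (m j - t) := ⟨_, rfl⟩
    have e4 : (fun x : σ → ℤ => ∏ i, (((sg j h + x) i : ℤ) : ℝ) ^ m i - ∏ i, (x i : ℝ) ^ m i) =
        fun x => ∑ t ∈ range (m j), c t * ∏ i, (x i : ℝ) ^ (Function.update m j t) i := by
      funext x
      rw [e2, e1, add_comm (h : ℝ), add_pow, sum_range_succ, Nat.sub_self, pow_zero, mul_one, Nat.choose_self, Nat.cast_one, mul_one,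
        add_mul, add_sub_cancel_right, sum_mul]
      apply sum_congr rfl
      intro t _
      rw [e3, hc]
      ring
    rw [e4]
    have hsum : ∀ t, ∑ i, Function.update m j t i + m j = ∑ i, m i + t := by
      intro t
      rw [← add_sum_erase univ _ (mem_univ j), ← add_sum_erase univ m (mem_univ j), Function.update_self]
      have : ∑ i ∈ univ.erase j, Function.update m j t i = ∑ i ∈ univ.erase j, m i := by
        apply sum_congr rfl
        intro i hi
        rw [mem_erase] at hi
        rw [Function.update_of_ne hi.1]
      rw [this]
      ring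
    rw [List.length_cons] at hm
    have hPD := PD_sum l (range (m j)) c (fun t => lc l (Function.update m j t)) (fun t x => ∏ i, (x i : ℝ) ^ (Function.update m j t) i)
      (fun t ht => by
        apply ih
        rw [mem_range] at ht
        have := hsum t
        omega)
    have e5 : ∑ t ∈ range (m j), c t * lc l (Function.update m j t) = lc (j :: l) m * h := by
      rcases Nat.eq_zero_or_pos (m j) with h0 | h0
      · rw [h0, sum_range_zero]
        unfold lc
        rw [if_neg, zero_mul]
        intro hall
        have := hall j
        rw [h0, List.count_cons_self] at this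
        omega
      · obtain ⟨s, hs⟩ : ∃ s, m j = s + 1 := ⟨m j - 1, by omega⟩
        rw [hs, sum_range_succ, sum_eq_zero, zero_add]
        · -- the main term
          have h1 : c s = (s + 1) * h := by
            rw [hc]
            simp only
            rw [hs, Nat.choose_succ_self_right, show s + 1 - s = 1 by omega, pow_one]
            push_cast
            ring
          rw [h1]
          unfold lc
          have h2 : (∀ i, Function.update m j s i = l.count i) ↔ (∀ i, m i = (j :: l).count i) := by
            constructor
            · intro h3 i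
              by_cases hi : i = j
              · subst hi
                have := h3 i
                rw [Function.update_self] at this
                rw [List.count_cons_self, hs, this]
              · have := h3 i
                rw [Function.update_of_ne hi] at this
                rw [List.count_cons_of_ne (fun h => hi h.symm), this]
            · intro h3 i
              by_cases hi : i = j
              · subst hi
                have := h3 i
                rw [List.count_cons_self, hs] at this
                rw [Function.update_self]
                omega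
              · have := h3 i
                rw [List.count_cons_of_ne (fun h => hi h.symm)] at this
                rw [Function.update_of_ne hi, this]
          by_cases h4 : ∀ i, m i = (j :: l).count i
          · rw [if_pos (h2.2 h4), if_pos h4]
            have h5 : ∏ i, (m i).factorial = (s + 1) * ∏ i, (Function.update m j s i).factorial := by
              rw [← mul_prod_erase univ _ (mem_univ j), ← mul_prod_erase univ (fun i => (Function.update m j s i).factorial) (mem_univ j),
                Function.update_self, hs, Nat.factorial_succ]
              have : ∏ i ∈ univ.erase j, (m i).factorial = ∏ i ∈ univ.erase j, (Function.update m j s i).factorial := by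
                apply prod_congr rfl
                intro i hi
                rw [mem_erase] at hi
                rw [Function.update_of_ne hi.1]
              rw [this]
              ring
            rw [h5]
            push_cast
            ring
          · rw [if_neg (fun h5 => h4 (h2.1 h5)), if_neg h4]
            ring
        · intro t ht
          rw [mem_range] at ht
          unfold lc
          rw [if_neg, mul_zero]
          intro hall
          have h1 := hsum t
          rw [sum_congr rfl (fun i _ => hall i), sum_count] at h1
          omega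
    rw [e5] at hPD
    exact hPD

/-- the value of a polynomial at an integral point -/
noncomputable def ev (F : MvPolynomial σ ℝ) (x : σ → ℤ) : ℝ := MvPolynomial.eval (fun j => ((x j : ℤ) : ℝ)) F

/-- a polynomial of degree at most `d` with a given coefficient of degree `d` -/
theorem poly_PD (F : MvPolynomial σ ℝ) (d : ℕ) (hF : F.totalDegree ≤ d) (m₀ : σ →₀ ℕ) (hm₀ : ∑ i, m₀ i = d) :
    ∃ l : List σ, l.length = d ∧ PD l (F.coeff m₀ * ((∏ i, (m₀ i).factorial : ℕ) : ℝ)) (ev F) := by
  classical
  obtain ⟨l, hl⟩ : ∃ l : List σ, l = (Finsupp.toMultiset m₀).toList := ⟨_, rfl⟩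
  have hcount : ∀ i, l.count i = m₀ i := by
    intro i
    rw [hl, ← Multiset.coe_count, Multiset.coe_toList, Finsupp.count_toMultiset]
  have hlen : l.length = d := by rw [← sum_count, sum_congr rfl (fun i _ => hcount i), hm₀]
  refine ⟨l, hlen, ?_⟩
  have hev : ev F = fun x => ∑ m ∈ F.support, F.coeff m * ∏ i, (x i : ℝ) ^ m i := by
    funext x
    unfold ev
    rw [MvPolynomial.eval_eq']
  rw [hev]
  have h1 := PD_sum l F.support (fun m => F.coeff m) (fun m => lc l m) (fun m x => ∏ i, (x i : ℝ) ^ m i) (fun m hm => by
    apply mono_PD
    rw [hlen]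
    refine le_trans ?_ hF
    have := MvPolynomial.le_totalDegree hm
    rwa [Finsupp.sum_fintype _ _ (fun _ => rfl)] at this)
  have h2 : ∑ m ∈ F.support, F.coeff m * lc l m = F.coeff m₀ * ((∏ i, (m₀ i).factorial : ℕ) : ℝ) := by
    have h3 : ∀ m ∈ F.support, F.coeff m * lc l m = if m = m₀ then F.coeff m₀ * ((∏ i, (m₀ i).factorial : ℕ) : ℝ) else 0 := by
      intro m _
      unfold lc
      by_cases h : m = m₀
      · subst h
        rw [if_pos (fun i => (hcount i).symm), if_pos rfl]
      · rw [if_neg, if_neg h, mul_zero]
        intro hall
        apply h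
        ext i
        rw [hall i, hcount i]
    rw [sum_congr rfl h3, sum_ite_eq']
    split_ifs with h
    · rfl
    · rw [MvPolynomial.notMem_support_iff] at h
      rw [h, zero_mul]
  rw [h2] at h1
  exact h1

/-- a bound for the values -/
lemma ev_le (F : MvPolynomial σ ℝ) (d : ℕ) (X : ℝ) (hX : 1 ≤ X) (hF : F.totalDegree ≤ d) (x : σ → ℤ) (hx : ∀ j, |(x j : ℝ)| ≤ X) :
    |ev F x| ≤ (∑ m ∈ F.support, |F.coeff m|) * X ^ d := by
  unfold ev
  rw [MvPolynomial.eval_eq', sum_mul]
  refine (abs_sum_le_sum_abs _ _).trans ?_
  apply sum_le_sum
  intro m hm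
  rw [abs_mul]
  apply mul_le_mul_of_nonneg_left _ (abs_nonneg _)
  rw [abs_prod]
  have h1 : ∀ j ∈ (univ : Finset σ), |(x j : ℝ) ^ m j| ≤ X ^ m j := by
    intro j _
    rw [abs_pow]
    exact pow_le_pow_left₀ (abs_nonneg _) (hx j) _
  refine (prod_le_prod (fun j _ => abs_nonneg _) h1).trans ?_
  rw [prod_pow_eq_pow_sum]
  apply pow_le_pow_right₀ hX
  refine le_trans ?_ hF
  have := MvPolynomial.le_totalDegree hm
  rwa [Finsupp.sum_fintype _ _ (fun _ => rfl)] at this

end Pool.Agent.K6.H45.MV
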