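import Pool.Agent.K6.H45.MV.Avg
import Pool.Agent.K6.H45.MV.Poly
import Pool.Agent.TH212.EH.A1

set_option autoImplicit false
set_option linter.unusedSectionVars false

/-! The additive energy of the values of a polynomial in several variables at points with restricted digits. -/

namespace Pool.Agent.K6.H45.MV
open Finset
open Pool.Agent.H807R2.Dav
open Pool.Agent.TH872.Sq
open Pool.Agent.TH212.EH (En)

lemma conj_ee (x : ℝ) : (starRingEnd ℂ) (ee x) = ee (-x) := Pool.Agent.H373R2.T7.conj_ee x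

/-- sums of exponentials at a real point close to zero -/
lemma fejer_low (T M : ℕ) (hM : 1 ≤ M) (p : ℕ) (hT : (8 * p : ℝ) * ((T : ℝ) - 1) ≤ M) (x : ℝ) (hx : |x| ≤ p) :
    (T : ℝ) ^ 2 / 2 ≤ ‖∑ t ∈ range T, ee ((t : ℝ) * (x / M))‖ ^ 2 := by
  have hM0 : (0 : ℝ) < M := by exact_mod_cast hM
  have h1 : ∀ t ∈ range T, Real.sqrt 2 / 2 ≤ (ee ((t : ℝ) * (x / M))).re := by
    intro t ht
    rw [mem_range] at ht
    rw [ee_eq, Complex.exp_ofReal_mul_I_re]
    have h2 : |2 * Real.pi * ((t : ℝ) * (x / M))| ≤ Real.pi / 4 := by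
      have h3 : |(t : ℝ) * (x / M)| ≤ 1 / 8 := by
        rw [abs_mul, abs_div, Nat.abs_cast, Nat.abs_cast, ← mul_div_assoc, div_le_iff₀ hM0]
        have h4 : (t : ℝ) ≤ (T : ℝ) - 1 := by
          have : (t : ℝ) + 1 ≤ T := by exact_mod_cast ht
          linarith
        have h5 : (t : ℝ) * |x| ≤ ((T : ℝ) - 1) * p := mul_le_mul h4 hx (abs_nonneg _) (by linarith [Nat.cast_nonneg (α := ℝ) t])
        linarith
      rw [abs_mul, abs_of_pos (by positivity : 0 < 2 * Real.pi)]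
      have := Real.pi_pos
      nlinarith
    rw [← Real.cos_abs, ← Real.cos_pi_div_four]
    exact Real.cos_le_cos_of_nonneg_of_le_pi (abs_nonneg _) (by linarith [Real.pi_pos]) h2
  have h2 : (T : ℝ) * (Real.sqrt 2 / 2) ≤ ‖∑ t ∈ range T, ee ((t : ℝ) * (x / M))‖ := by
    refine le_trans ?_ (Complex.re_le_norm _)
    rw [Complex.re_sum]
    calc (T : ℝ) * (Real.sqrt 2 / 2) = ∑ _t ∈ range T, Real.sqrt 2 / 2 := by rw [sum_const, card_range, nsmul_eq_mul]
      _ ≤ _ := sum_le_sum h1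
  have h3 : ((T : ℝ) * (Real.sqrt 2 / 2)) ^ 2 = (T : ℝ) ^ 2 / 2 := by
    rw [mul_pow, div_pow, Real.sq_sqrt (by norm_num)]
    ring
  rw [← h3]
  exact pow_le_pow_left₀ (by positivity) h2 2

/-- real families: the energy of the rounded values is bounded by a moment -/
theorem En_real {ι : Type} [Fintype ι] (p : ℕ) (hp : 1 ≤ p) (F : ι → ℝ) (M : ℕ) (hM : 1 ≤ M) :
    (M : ℝ) * En p (fun i => round (F i)) ≤ 32 * p * ∑ t ∈ range M, ‖∑ i, ee ((t : ℝ) * (F i / M))‖ ^ (2 * p) := by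
  classical
  have hM0 : (0 : ℝ) < M := by exact_mod_cast hM
  have hp0 : (1 : ℝ) ≤ p := by exact_mod_cast hp
  obtain ⟨T, hT⟩ : ∃ T : ℕ, T = ⌊(M : ℝ) / (8 * p)⌋₊ + 1 := ⟨_, rfl⟩
  have hT1 : (8 * p : ℝ) * ((T : ℝ) - 1) ≤ M := by
    have h1 := Nat.floor_le (show 0 ≤ (M : ℝ) / (8 * p) by positivity)
    rw [le_div_iff₀ (by positivity)] at h1
    rw [hT]
    push_cast
    linarith
  have hT2 : (M : ℝ) ≤ 8 * p * T := by
    have h1 := Nat.lt_floor_add_one ((M : ℝ) / (8 * p))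
    rw [div_lt_iff₀ (by positivity)] at h1
    rw [hT]
    push_cast
    linarith
  have hTM : T ≤ M := by
    by_contra h
    push Not at h
    have h2 : (M : ℝ) + 1 ≤ T := by exact_mod_cast h
    have h3 : (8 * p : ℝ) * M ≤ (8 * p) * ((T : ℝ) - 1) := mul_le_mul_of_nonneg_left (by linarith) (by positivity)
    nlinarith
  have hT0 : (0 : ℝ) < T := by
    rw [hT]
    positivity
  obtain ⟨x, hx⟩ : ∃ x : (Fin p → ι) × (Fin p → ι) → ℝ, x = fun q => ∑ j, F (q.1 j) - ∑ j, F (q.2 j) := ⟨_, rfl⟩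
  obtain ⟨S, hS⟩ : ∃ S : ℝ → ℂ, S = fun θ => ∑ i, ee (θ * (F i / M)) := ⟨_, rfl⟩
  have hSsym : ∀ θ, ‖S (-θ)‖ = ‖S θ‖ := by
    intro θ
    have h1 : S (-θ) = (starRingEnd ℂ) (S θ) := by
      rw [hS]
      simp only [map_sum, conj_ee]
      apply sum_congr rfl
      intro i _
      congr 1
      ring
    rw [h1, Complex.norm_conj]
  have hpow : ∀ θ, ((‖S θ‖ ^ (2 * p) : ℝ) : ℂ) = ∑ q : (Fin p → ι) × (Fin p → ι), ee (θ * (x q / M)) := by
    intro θ
    have h1 : ((‖S θ‖ ^ (2 * p) : ℝ) : ℂ) = S θ ^ p * ((starRingEnd ℂ) (S θ)) ^ p := by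
      rw [pow_mul, Complex.ofReal_pow, Complex.ofReal_pow, ← Complex.mul_conj', mul_pow]
    have h2 : S θ ^ p = ∑ f : Fin p → ι, ee (θ * ((∑ j, F (f j)) / M)) := by
      rw [hS]
      simp only
      rw [Fintype.sum_pow]
      apply sum_congr rfl
      intro f _
      have h3 : ∀ (s : Finset (Fin p)), ∏ j ∈ s, ee (θ * (F (f j) / M)) = ee (θ * ((∑ j ∈ s, F (f j)) / M)) := by
        intro s
        induction s using Finset.induction_on with
        | empty => simp [ee_zero]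
        | insert j s hj ih =>
          rw [prod_insert hj, sum_insert hj, ih, ← ee_add]
          congr 1
          ring
      exact h3 univ
    rw [h1, ← map_pow, h2, map_sum, sum_mul_sum, Fintype.sum_prod_type]
    apply sum_congr rfl
    intro f _
    apply sum_congr rfl
    intro f' _
    rw [conj_ee, ← ee_add, hx]
    congr 1
    ring
  -- the double sum
  have hdouble : ∑ q : (Fin p → ι) × (Fin p → ι), ‖∑ t ∈ range T, ee ((t : ℝ) * (x q / M))‖ ^ 2 =
      ∑ t ∈ range T, ∑ t' ∈ range T, ‖S ((t : ℝ) - t')‖ ^ (2 * p) := by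
    have h1 : ((∑ q : (Fin p → ι) × (Fin p → ι), ‖∑ t ∈ range T, ee ((t : ℝ) * (x q / M))‖ ^ 2 : ℝ) : ℂ) =
        ((∑ t ∈ range T, ∑ t' ∈ range T, ‖S ((t : ℝ) - t')‖ ^ (2 * p) : ℝ) : ℂ) := by
      push_cast
      have h2 : ∀ q : (Fin p → ι) × (Fin p → ι), ((‖∑ t ∈ range T, ee ((t : ℝ) * (x q / M))‖ : ℝ) : ℂ) ^ 2 =
          ∑ t ∈ range T, ∑ t' ∈ range T, ee (((t : ℝ) - t') * (x q / M)) := by
        intro q
        rw [← Complex.mul_conj', map_sum, sum_mul_sum]
        apply sum_congr rfl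
        intro t _
        apply sum_congr rfl
        intro t' _
        rw [conj_ee, ← ee_add]
        congr 1
        ring
      simp only [h2]
      rw [sum_comm]
      apply sum_congr rfl
      intro t _
      rw [sum_comm]
      apply sum_congr rfl
      intro t' _
      have := hpow ((t : ℝ) - t')
      push_cast at this
      rw [this]
    exact_mod_cast h1
  obtain ⟨V, hV⟩ : ∃ V : ℝ, V = ∑ t ∈ range M, ‖S t‖ ^ (2 * p) := ⟨_, rfl⟩
  have hup : ∑ t ∈ range T, ∑ t' ∈ range T, ‖S ((t : ℝ) - t')‖ ^ (2 * p) ≤ T * (2 * V) := by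
    have h1 : ∀ t ∈ range T, ∑ t' ∈ range T, ‖S ((t : ℝ) - t')‖ ^ (2 * p) ≤ 2 * V := by
      intro t ht
      rw [mem_range] at ht
      have h2 : ∑ t' ∈ (range T).filter (fun t' => t' ≤ t), ‖S ((t : ℝ) - t')‖ ^ (2 * p) ≤ V := by
        rw [hV]
        have h3 : ∑ t' ∈ (range T).filter (fun t' => t' ≤ t), ‖S ((t : ℝ) - t')‖ ^ (2 * p) =
            ∑ u ∈ ((range T).filter (fun t' => t' ≤ t)).image (fun t' => t - t'), ‖S u‖ ^ (2 * p) := by
          rw [sum_image]
          · apply sum_congr rfl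
            intro t' ht'
            rw [mem_filter] at ht'
            rw [Nat.cast_sub ht'.2]
          · intro a ha b' hb' hab
            rw [mem_coe, mem_filter] at ha hb'
            simp only at hab
            omega
        rw [h3]
        apply sum_le_sum_of_subset_of_nonneg
        · intro u hu
          rw [mem_image] at hu
          obtain ⟨t', ht', rfl⟩ := hu
          rw [mem_range]
          omega
        · intro _ _ _
          positivity
      have h4 : ∑ t' ∈ (range T).filter (fun t' => ¬ t' ≤ t), ‖S ((t : ℝ) - t')‖ ^ (2 * p) ≤ V := by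
        rw [hV]
        have h3 : ∑ t' ∈ (range T).filter (fun t' => ¬ t' ≤ t), ‖S ((t : ℝ) - t')‖ ^ (2 * p) =
            ∑ u ∈ ((range T).filter (fun t' => ¬ t' ≤ t)).image (fun t' => t' - t), ‖S u‖ ^ (2 * p) := by
          rw [sum_image]
          · apply sum_congr rfl
            intro t' ht'
            rw [mem_filter] at ht'
            rw [Nat.cast_sub (by omega), ← hSsym]
            congr 3
            ring
          · intro a ha b' hb' hab
            rw [mem_coe, mem_filter] at ha hb'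
            simp only at hab
            omega
        rw [h3]
        apply sum_le_sum_of_subset_of_nonneg
        · intro u hu
          rw [mem_image] at hu
          obtain ⟨t', ht', rfl⟩ := hu
          rw [mem_filter, mem_range] at ht'
          rw [mem_range]
          omega
        · intro _ _ _
          positivity
      rw [← sum_filter_add_sum_filter_not (range T) (fun t' => t' ≤ t)]
      linarith
    calc _ ≤ ∑ _t ∈ range T, 2 * V := sum_le_sum h1
      _ = _ := by rw [sum_const, card_range, nsmul_eq_mul]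
  have hlow : (En p (fun i => round (F i)) : ℝ) * ((T : ℝ) ^ 2 / 2) ≤
      ∑ q : (Fin p → ι) × (Fin p → ι), ‖∑ t ∈ range T, ee ((t : ℝ) * (x q / M))‖ ^ 2 := by
    unfold En
    rw [Nat.card_eq_fintype_card, Fintype.card_subtype, ← nsmul_eq_mul]
    refine le_trans ?_ (sum_le_sum_of_subset_of_nonneg (filter_subset (fun q : (Fin p → ι) × (Fin p → ι) =>
      ∑ j, round (F (q.1 j)) = ∑ j, round (F (q.2 j))) univ) (fun _ _ _ => sq_nonneg _))
    apply card_nsmul_le_sum
    intro q hq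
    rw [mem_filter] at hq
    apply fejer_low T M hM p hT1
    have h1 : (∑ j, (round (F (q.1 j)) : ℝ)) = ∑ j, (round (F (q.2 j)) : ℝ) := by exact_mod_cast hq.2
    have h2 : x q = ∑ j, ((F (q.1 j) - round (F (q.1 j))) - (F (q.2 j) - round (F (q.2 j)))) := by
      rw [hx]
      simp only [sum_sub_distrib]
      linarith
    rw [h2]
    refine (abs_sum_le_sum_abs _ _).trans ?_
    calc ∑ j : Fin p, |(F (q.1 j) - round (F (q.1 j))) - (F (q.2 j) - round (F (q.2 j)))| ≤ ∑ _j : Fin p, (1 : ℝ) := by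
          apply sum_le_sum
          intro j _
          refine (abs_sub _ _).trans ?_
          have h3 := abs_sub_round (F (q.1 j))
          have h4 := abs_sub_round (F (q.2 j))
          linarith
      _ = p := by rw [sum_const, card_univ, Fintype.card_fin, nsmul_eq_mul, mul_one]
  have hfin : (En p (fun i => round (F i)) : ℝ) * ((T : ℝ) ^ 2 / 2) ≤ T * (2 * V) := hlow.trans (hdouble ▸ hup)
  have h5 : (En p (fun i => round (F i)) : ℝ) * T ≤ 4 * V := by
    have h6 : ((En p (fun i => round (F i)) : ℝ) * T) * T ≤ (4 * V) * T := by nlinarith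
    exact le_of_mul_le_mul_right h6 hT0
  have h7 : (M : ℝ) * En p (fun i => round (F i)) ≤ 8 * p * (4 * V) := by
    calc (M : ℝ) * En p (fun i => round (F i)) ≤ (8 * p * T) * En p (fun i => round (F i)) :=
          mul_le_mul_of_nonneg_right hT2 (Nat.cast_nonneg _)
      _ = 8 * p * ((En p (fun i => round (F i)) : ℝ) * T) := by ring
      _ ≤ _ := mul_le_mul_of_nonneg_left h5 (by positivity)
  refine h7.trans (le_of_eq ?_)
  rw [hV, hS]
  ring

variable {σ : Type} [DecidableEq σ] [Fintype σ]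

/-- **The values of a polynomial of degree `d ≥ 2` in several variables at points with restricted digits have nearly
minimal energy.** -/
theorem poly_energy (b : ℕ) (hb : 2 ≤ b) (d : ℕ) (hd : 2 ≤ d) (K : ℕ) : ∃ p : ℕ, ∃ C : ℝ, 1 ≤ p ∧ 0 < C ∧ ∀ k : ℕ,
    ∀ D : σ → ℕ → Finset ℕ, (∀ j, ∀ i < k, D j i ⊆ range b ∧ 2 ≤ (D j i).card) →
    ∀ F : MvPolynomial σ ℝ, F.totalDegree ≤ d → ∀ m₀ : σ →₀ ℕ, ∑ i, m₀ i = d → 1 ≤ K * |F.coeff m₀| → |F.coeff m₀| ≤ K →
    (En p (fun i : {q // q ∈ Pts b D k} => round (ev F (fun j => (i.1 j : ℤ)))) : ℝ) * ((b ^ (d * k) : ℕ) : ℝ) ≤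
      C * (Fintype.card {q // q ∈ Pts b D k} : ℝ) ^ (2 * p) := by
  classical
  obtain ⟨n, rfl⟩ : ∃ n, d = n + 1 := ⟨d - 1, by omega⟩
  obtain ⟨p, C, hp, hC, hmom⟩ := moment (σ := σ) b hb (1 / 2) (by norm_num) n (by omega) ((K + 1) * (n + 1).factorial)
    (Nat.mul_pos (by omega) (n + 1).factorial_pos)
  refine ⟨p, 32 * p * C, hp, by positivity, fun k D hD F hF m₀ hm₀ hc0 hcK => ?_⟩
  obtain ⟨M, hM⟩ : ∃ M, M = b ^ ((n + 1) * k) := ⟨_, rfl⟩
  have hM1 : 1 ≤ M := by rw [hM]; exact Nat.one_le_pow _ _ (by omega)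
  obtain ⟨Z, hZ⟩ : ∃ Z : ℝ, Z = ((Pts b D k).card : ℝ) := ⟨_, rfl⟩
  have hZ0 : 0 < Z := by rw [hZ]; exact Pts_pos b hb k D hD
  have hfc : (Fintype.card {q // q ∈ Pts b D k} : ℝ) = Z := by rw [hZ, Fintype.card_coe]
  obtain ⟨l, hl1, hl2⟩ := poly_PD F (n + 1) hF m₀ hm₀
  obtain ⟨φ, hφ⟩ : ∃ φ : ℝ, φ = ((∏ i, (m₀ i).factorial : ℕ) : ℝ) := ⟨_, rfl⟩
  have hφ1 : 1 ≤ φ := by
    rw [hφ]
    exact_mod_cast prod_pos fun i _ => (m₀ i).factorial_pos
  have hφ2 : φ ≤ (n + 1).factorial := by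
    have h1 : ∏ i, (m₀ i).factorial ∣ (∑ i, m₀ i).factorial := Nat.prod_factorial_dvd_factorial_sum univ m₀
    rw [hm₀] at h1
    have h2 := Nat.le_of_dvd (n + 1).factorial_pos h1
    rw [hφ]
    exact_mod_cast h2
  have hfr : (1 : ℝ) ≤ ((n + 1).factorial : ℝ) := by exact_mod_cast (n + 1).factorial_pos
  rw [← hφ] at hl2
  have h0 := abs_nonneg (F.coeff m₀)
  have hK0 : (0 : ℝ) ≤ K := Nat.cast_nonneg _
  have hA1 : 1 ≤ (((K + 1) * (n + 1).factorial : ℕ) : ℝ) * |F.coeff m₀ * φ| := by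
    rw [abs_mul, abs_of_pos (by linarith : 0 < φ)]
    push_cast
    have h1 : 1 ≤ ((K : ℝ) + 1) * |F.coeff m₀| := by nlinarith
    have h2 : 1 ≤ ((n + 1).factorial : ℝ) * φ := one_le_mul_of_one_le_of_one_le hfr hφ1
    calc (1 : ℝ) ≤ (((K : ℝ) + 1) * |F.coeff m₀|) * (((n + 1).factorial : ℝ) * φ) := one_le_mul_of_one_le_of_one_le h1 h2
      _ = _ := by ring
  have hA2 : |F.coeff m₀ * φ| ≤ (((K + 1) * (n + 1).factorial : ℕ) : ℝ) := by
    rw [abs_mul, abs_of_pos (by linarith : 0 < φ)]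
    push_cast
    exact mul_le_mul (by linarith) hφ2 (by linarith) (by linarith)
  have h2 := hmom k M hM (fun j => law (D j) k) (fun j => dig_law b hb (D j) k (hD j)) l hl1 _ hA1 hA2 (ev F) hl2
  have h1 := En_real p hp (fun i : {q // q ∈ Pts b D k} => ev F (fun j => (i.1 j : ℤ))) M hM1
  rw [← hM, mul_comm, hfc]
  refine h1.trans ?_
  have h3 : ∀ t ∈ range M, ‖∑ i : {q // q ∈ Pts b D k}, ee ((t : ℝ) * (ev F (fun j => (i.1 j : ℤ)) / M))‖ ^ (2 * p) =
      Z ^ (2 * p) * ‖Es b (fun j => law (D j) k) (full σ k) (fun x => ee ((t : ℝ) * (ev F x / M)))‖ ^ (2 * p) := by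
    intro t _
    have e1 : ∑ i : {q // q ∈ Pts b D k}, ee ((t : ℝ) * (ev F (fun j => (i.1 j : ℤ)) / M)) =
        ∑ q ∈ Pts b D k, ee ((t : ℝ) * (ev F (fun j => (q j : ℤ)) / M)) :=
      sum_coe_sort (Pts b D k) (fun q => ee ((t : ℝ) * (ev F (fun j => (q j : ℤ)) / M)))
    rw [e1, avg b hb k D hD (fun x => ee ((t : ℝ) * (ev F x / M))), norm_smul, mul_pow, ← hZ, Real.norm_of_nonneg hZ0.le]
  rw [sum_congr rfl h3, ← mul_sum]
  calc 32 * p * (Z ^ (2 * p) * ∑ t ∈ range M, ‖Es b (fun j => law (D j) k) (full σ k) (fun x => ee ((t : ℝ) * (ev F x / M)))‖ ^ (2 * p)) ≤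
      32 * p * (Z ^ (2 * p) * C) := by
        apply mul_le_mul_of_nonneg_left _ (by positivity)
        exact mul_le_mul_of_nonneg_left h2 (by positivity)
    _ = _ := by ring

end Pool.Agent.K6.H45.MV
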