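import Pool.Agent.K6.H45.MV.Scale

set_option autoImplicit false
set_option linter.unusedSectionVars false

/-! Moments of exponential sums over several variables with independent random digits. -/

namespace Pool.Agent.K6.H45.MV
open Finset
open Pool.Agent.H807R2.Dav
open Pool.Agent.TH872.Sq

/-- from a bound at every scale to a moment -/
lemma moment_abs (b : ℕ) (hb : 2 ≤ b) (M : ℕ) (W : ℕ → ℝ) (p : ℕ) (hW0 : ∀ t, 0 ≤ W t) (hW1 : ∀ t, W t ≤ 1)
    (Mj : ℕ → ℕ → Prop) [∀ L t, Decidable (Mj L t)] (C₁ D y : ℝ) (hC₁ : 0 ≤ C₁) (hD : 1 ≤ D) (hy0 : 0 ≤ y) (e f Lm : ℕ)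
    (hy : y ≤ 1 / (b : ℝ) ^ (e + f + 1)) (hM : (M : ℝ) ≤ (b : ℝ) ^ (f * (Lm + 1)))
    (hcnt : ∀ L, 1 ≤ L → (((range M).filter (Mj L)).card : ℝ) ≤ C₁ * (b : ℝ) ^ (e * L))
    (hmin : ∀ t L, 1 ≤ L → L ≤ Lm → ¬ Mj L t → W t ^ p ≤ D * y ^ L) :
    ∑ t ∈ range M, W t ^ p ≤ 2 * C₁ * D * (b : ℝ) ^ e + D * (b : ℝ) ^ f := by
  have hb2 : (2 : ℝ) ≤ b := by exact_mod_cast hb
  have hb0 : (0 : ℝ) < b := by linarith
  obtain ⟨χ, hχ⟩ : ∃ χ : ℕ → ℕ → ℝ, ∀ L t, χ L t = if Mj L t then 1 else 0 := ⟨_, fun _ _ => rfl⟩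
  have hχ0 : ∀ L t, 0 ≤ χ L t := fun L t => by rw [hχ]; split_ifs <;> norm_num
  have hD0 : 0 ≤ D := by linarith
  have hpt : ∀ t, ∀ L, L ≤ Lm → W t ^ p ≤ ∑ l ∈ range L, D * y ^ l * χ (l + 1) t + D * y ^ L := by
    intro t L
    induction L with
    | zero =>
      intro _
      rw [sum_range_zero, pow_zero, mul_one, zero_add]
      exact (pow_le_one₀ (hW0 t) (hW1 t)).trans hD
    | succ L ih =>
      intro hL
      have h1 := ih (by omega)
      rw [sum_range_succ]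
      have h5 := pow_nonneg hy0 L
      have h6 := pow_nonneg hy0 (L + 1)
      by_cases h : Mj (L + 1) t
      · rw [hχ (L + 1), if_pos h, mul_one]
        have h2 : 0 ≤ D * y ^ (L + 1) := by positivity
        linarith
      · have h2 := hmin t (L + 1) (by omega) hL h
        have h3 : 0 ≤ ∑ l ∈ range L, D * y ^ l * χ (l + 1) t :=
          sum_nonneg fun l _ => mul_nonneg (mul_nonneg hD0 (pow_nonneg hy0 _)) (hχ0 _ _)
        have h4 : 0 ≤ D * y ^ L * χ (L + 1) t := mul_nonneg (mul_nonneg hD0 h5) (hχ0 _ _)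
        linarith
  have hsum := sum_le_sum (fun t (_ : t ∈ range M) => hpt t Lm le_rfl)
  refine hsum.trans ?_
  rw [sum_add_distrib, sum_comm, sum_const, card_range, nsmul_eq_mul]
  have hye : y * (b : ℝ) ^ e ≤ 1 / 2 := by
    calc y * (b : ℝ) ^ e ≤ 1 / (b : ℝ) ^ (e + f + 1) * (b : ℝ) ^ e := mul_le_mul_of_nonneg_right hy (by positivity)
      _ = 1 / (b : ℝ) ^ (f + 1) := by
          rw [show e + f + 1 = e + (f + 1) by ring, pow_add]
          field_simp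
      _ ≤ 1 / 2 := by
          apply one_div_le_one_div_of_le (by norm_num)
          calc (2 : ℝ) ≤ b := hb2
            _ = (b : ℝ) ^ 1 := (pow_one _).symm
            _ ≤ (b : ℝ) ^ (f + 1) := pow_le_pow_right₀ (by linarith) (by omega)
  have hyf : y * (b : ℝ) ^ f ≤ 1 := by
    calc y * (b : ℝ) ^ f ≤ 1 / (b : ℝ) ^ (e + f + 1) * (b : ℝ) ^ f := mul_le_mul_of_nonneg_right hy (by positivity)
      _ = 1 / (b : ℝ) ^ (e + 1) := by
          rw [show e + f + 1 = f + (e + 1) by ring, pow_add]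
          field_simp
      _ ≤ 1 := by
          rw [div_le_one (by positivity)]
          exact one_le_pow₀ (by linarith)
  apply add_le_add
  · have h1 : ∀ l ∈ range Lm, ∑ t ∈ range M, D * y ^ l * χ (l + 1) t ≤ (C₁ * D * (b : ℝ) ^ e) * (1 / 2) ^ l := by
      intro l _
      rw [← mul_sum]
      have h2 : ∑ t ∈ range M, χ (l + 1) t ≤ C₁ * (b : ℝ) ^ (e * (l + 1)) := by
        refine le_trans (le_of_eq ?_) (hcnt (l + 1) (by omega))
        simp only [hχ]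
        rw [sum_boole]
      calc D * y ^ l * ∑ t ∈ range M, χ (l + 1) t ≤ D * y ^ l * (C₁ * (b : ℝ) ^ (e * (l + 1))) :=
            mul_le_mul_of_nonneg_left h2 (mul_nonneg hD0 (pow_nonneg hy0 _))
        _ = (C₁ * D * (b : ℝ) ^ e) * (y * (b : ℝ) ^ e) ^ l := by
            rw [mul_pow, ← pow_mul, mul_add, pow_add]
            ring
        _ ≤ _ := by
            apply mul_le_mul_of_nonneg_left _ (by positivity)
            exact pow_le_pow_left₀ (by positivity) hye l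
    refine (sum_le_sum h1).trans ?_
    rw [← mul_sum]
    have h2 : ∑ l ∈ range Lm, (1 / 2 : ℝ) ^ l ≤ 2 := by
      rw [geom_sum_eq (by norm_num)]
      have : (0 : ℝ) ≤ (1 / 2) ^ Lm := by positivity
      rw [div_le_iff_of_neg (by norm_num)]
      linarith
    calc (C₁ * D * (b : ℝ) ^ e) * ∑ l ∈ range Lm, (1 / 2 : ℝ) ^ l ≤ (C₁ * D * (b : ℝ) ^ e) * 2 :=
          mul_le_mul_of_nonneg_left h2 (by positivity)
      _ = _ := by ring
  · calc (M : ℝ) * (D * y ^ Lm) ≤ (b : ℝ) ^ (f * (Lm + 1)) * (D * y ^ Lm) :=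
          mul_le_mul_of_nonneg_right hM (mul_nonneg hD0 (pow_nonneg hy0 _))
      _ = D * (b : ℝ) ^ f * (y * (b : ℝ) ^ f) ^ Lm := by
          rw [mul_pow, ← pow_mul, mul_add, pow_add]
          ring
      _ ≤ D * (b : ℝ) ^ f * 1 := by
          apply mul_le_mul_of_nonneg_left _ (by positivity)
          exact pow_le_one₀ (by positivity) hyf
      _ = _ := mul_one _

variable {σ : Type} [DecidableEq σ]

lemma PD_smul (l : List σ) (A θ : ℝ) (g : (σ → ℤ) → ℝ) (h : PD l A g) : PD l (θ * A) (fun x => θ * g x) := by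
  induction l generalizing A g with
  | nil => intro x; simp only; rw [h x]
  | cons j l ih =>
    intro t
    have h1 := ih _ _ (h t)
    simp only at h1 ⊢
    have e : (fun x => θ * g (sg j t + x) - θ * g x) = (fun x => θ * (g (sg j t + x) - g x)) := by
      funext x
      ring
    rw [e, mul_assoc]
    exact h1

/-- the natural numbers at which a linear function is small -/
lemma count_lin (T : Finset ℕ) (α β R : ℝ) (K : ℕ) (hR : 0 ≤ R) (hα : 1 ≤ K * |α|) (h : ∀ t ∈ T, |α * t - β| ≤ R) :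
    (T.card : ℝ) ≤ 2 * R * K + 1 := by
  rcases T.eq_empty_or_nonempty with h0 | h0
  · rw [h0, card_empty, Nat.cast_zero]
    positivity
  · obtain ⟨t₀, ht₀⟩ : ∃ t₀, t₀ = T.min' h0 := ⟨_, rfl⟩
    obtain ⟨t₁, ht₁⟩ : ∃ t₁, t₁ = T.max' h0 := ⟨_, rfl⟩
    have h1 : T ⊆ Icc t₀ t₁ := by
      intro t ht
      rw [mem_Icc, ht₀, ht₁]
      exact ⟨min'_le T t ht, le_max' T t ht⟩
    have h2 : t₀ ≤ t₁ := by
      rw [ht₀, ht₁]
      exact min'_le_max' T h0
    have h3 := h t₀ (by rw [ht₀]; exact min'_mem T h0)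
    have h4 := h t₁ (by rw [ht₁]; exact max'_mem T h0)
    have h5 : |α| * ((t₁ : ℝ) - t₀) ≤ 2 * R := by
      have h6 : |α * ((t₁ : ℝ) - t₀)| ≤ 2 * R := by
        have e : α * ((t₁ : ℝ) - t₀) = (α * t₁ - β) - (α * t₀ - β) := by ring
        rw [e]
        refine (abs_sub _ _).trans ?_
        linarith
      rw [abs_mul, abs_of_nonneg (by have : (t₀ : ℝ) ≤ t₁ := by exact_mod_cast h2
                                     linarith : (0 : ℝ) ≤ (t₁ : ℝ) - t₀)] at h6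
      exact h6
    have h7 : ((t₁ : ℝ) - t₀) ≤ 2 * R * K := by
      have h8 : (t₀ : ℝ) ≤ t₁ := by exact_mod_cast h2
      calc ((t₁ : ℝ) - t₀) = 1 * ((t₁ : ℝ) - t₀) := (one_mul _).symm
        _ ≤ (K * |α|) * ((t₁ : ℝ) - t₀) := mul_le_mul_of_nonneg_right hα (by linarith)
        _ = K * (|α| * ((t₁ : ℝ) - t₀)) := by ring
        _ ≤ K * (2 * R) := mul_le_mul_of_nonneg_left h5 (Nat.cast_nonneg _)
        _ = _ := by ring
    have h9 : (T.card : ℝ) ≤ (t₁ : ℝ) - t₀ + 1 := by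
      have h10 := card_le_card h1
      rw [Nat.card_Icc] at h10
      have h11 : (T.card : ℝ) ≤ ((t₁ + 1 - t₀ : ℕ) : ℝ) := Nat.cast_le.2 h10
      rw [Nat.cast_sub (by omega)] at h11
      push_cast at h11
      linarith
    linarith

/-- frequencies close to rational numbers -/
def MajR (M : ℕ) (α : ℝ) (Qm R : ℕ) (t : ℕ) : Prop := ∃ Q : ℕ, ∃ a : ℤ, 1 ≤ Q ∧ Q ≤ Qm ∧ |α * Q * t - a * M| ≤ R

open Classical in
lemma count_majR (M : ℕ) (α : ℝ) (K Qm R : ℕ) (hM : 1 ≤ M) (hα : 1 ≤ K * |α|) (hα' : |α| ≤ K) :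
    (((range M).filter (MajR M α Qm R)).card : ℝ) ≤ Qm * ((2 * (K * Qm + R) + 1) * (2 * R * K + 1)) := by
  have hMr : (1 : ℝ) ≤ M := by exact_mod_cast hM
  obtain ⟨am, ham⟩ : ∃ am : ℕ, am = K * Qm + R := ⟨_, rfl⟩
  have h1 : (range M).filter (MajR M α Qm R) ⊆ (Icc 1 Qm).biUnion (fun Q => (Icc (-(am : ℤ)) am).biUnion
      (fun a => (range M).filter (fun t : ℕ => |(α * Q) * t - a * M| ≤ R))) := by
    intro t ht
    rw [mem_filter] at ht
    obtain ⟨Q, a, hQ1, hQ2, hQ⟩ := ht.2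
    rw [mem_biUnion]
    refine ⟨Q, mem_Icc.2 ⟨hQ1, hQ2⟩, ?_⟩
    rw [mem_biUnion]
    refine ⟨a, ?_, ?_⟩
    · rw [mem_Icc, ← abs_le]
      have h2 : |(a : ℝ)| * M ≤ (am : ℝ) * M := by
        have e2 : |(a : ℝ) * M| ≤ |α * Q * t| + |α * Q * t - a * M| := by
          calc |(a : ℝ) * M| = |α * Q * t - (α * Q * t - a * M)| := by congr 1; ring
            _ ≤ _ := abs_sub _ _
        rw [abs_mul, abs_of_pos (by linarith : (0 : ℝ) < M)] at e2
        refine e2.trans ?_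
        have htM : (t : ℝ) ≤ M := by exact_mod_cast (mem_range.1 ht.1).le
        have e3 : |α * Q * t| ≤ K * Qm * M := by
          rw [abs_mul, abs_mul, Nat.abs_cast, Nat.abs_cast]
          have : (Q : ℝ) ≤ Qm := by exact_mod_cast hQ2
          gcongr
        have e4 : (R : ℝ) ≤ R * M := le_mul_of_one_le_right (Nat.cast_nonneg _) hMr
        rw [ham]
        push_cast
        nlinarith
      have h3 : |(a : ℝ)| ≤ am := le_of_mul_le_mul_right h2 (by linarith)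
      exact_mod_cast h3
    · rw [mem_filter]
      exact ⟨ht.1, hQ⟩
  have h2 : (((range M).filter (MajR M α Qm R)).card : ℝ) ≤ ∑ Q ∈ Icc 1 Qm, ∑ a ∈ Icc (-(am : ℤ)) am,
      (((range M).filter (fun t : ℕ => |(α * Q) * t - a * M| ≤ R)).card : ℝ) := by
    have h3 := (card_le_card h1).trans card_biUnion_le
    have h4 : ∑ Q ∈ Icc 1 Qm, ((Icc (-(am : ℤ)) am).biUnion (fun a => (range M).filter (fun t : ℕ => |(α * (Q : ℕ)) * t - a * M| ≤ R))).card ≤
        ∑ Q ∈ Icc 1 Qm, ∑ a ∈ Icc (-(am : ℤ)) am, ((range M).filter (fun t : ℕ => |(α * (Q : ℕ)) * t - a * M| ≤ R)).card :=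
      sum_le_sum fun Q _ => card_biUnion_le
    exact_mod_cast h3.trans h4
  refine h2.trans ?_
  calc ∑ Q ∈ Icc 1 Qm, ∑ a ∈ Icc (-(am : ℤ)) am, (((range M).filter (fun t : ℕ => |(α * (Q : ℕ)) * t - a * M| ≤ R)).card : ℝ) ≤
      ∑ _Q ∈ Icc 1 Qm, ∑ _a ∈ Icc (-(am : ℤ)) am, (2 * (R : ℝ) * K + 1) := by
        apply sum_le_sum
        intro Q hQ
        rw [mem_Icc] at hQ
        apply sum_le_sum
        intro a _
        apply count_lin _ (α * Q) (a * M) R K (Nat.cast_nonneg _)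
        · rw [abs_mul, Nat.abs_cast]
          have : (1 : ℝ) ≤ Q := by exact_mod_cast hQ.1
          calc (1 : ℝ) ≤ K * |α| := hα
            _ ≤ K * |α| * Q := le_mul_of_one_le_right (by positivity) this
            _ = _ := by ring
        · intro t ht
          exact (mem_filter.1 ht).2
    _ = _ := by
        rw [sum_const, sum_const, Nat.card_Icc, Int.card_Icc, nsmul_eq_mul, nsmul_eq_mul]
        have e1 : (((am : ℤ) + 1 - -(am : ℤ)).toNat : ℝ) = 2 * am + 1 := by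
          have : ((am : ℤ) + 1 - -(am : ℤ)).toNat = 2 * am + 1 := by omega
          rw [this]
          push_cast
          ring
        rw [e1, ham, Nat.add_sub_cancel]
        push_cast
        ring

/-- **Moments.** -/
theorem moment [Fintype σ] (b : ℕ) (hb : 2 ≤ b) (η : ℝ) (hη : 0 < η) (n : ℕ) (hn : 1 ≤ n) (K : ℕ) (hK : 1 ≤ K) :
    ∃ p : ℕ, ∃ C : ℝ, 1 ≤ p ∧ 0 < C ∧ ∀ k M : ℕ, M = b ^ ((n + 1) * k) →
    ∀ (w : σ → ℕ → ℕ → ℝ), (∀ j, Dig b η (w j)) → ∀ (l : List σ), l.length = n + 1 → ∀ (A : ℝ), 1 ≤ K * |A| → |A| ≤ K →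
    ∀ (g : (σ → ℤ) → ℝ), PD l A g →
    ∑ t ∈ range M, ‖Es b w (full σ k) (fun x => ee ((t : ℝ) * (g x / M)))‖ ^ (2 * p) ≤ C := by
  classical
  by_cases hη1 : η ≤ 1
  swap
  · refine ⟨1, 1, le_rfl, one_pos, fun k M _ w hw l hl => ?_⟩
    exfalso
    cases l with
    | nil => simp at hl
    | cons j l => exact hη1 (eta_le (hw j))
  have hb2 : (2 : ℝ) ≤ b := by exact_mod_cast hb
  have hb0 : (0 : ℝ) < b := by linarith
  have hKr : (1 : ℝ) ≤ K := by exact_mod_cast hK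
  obtain ⟨s, c, hs1, hc1, hweyl⟩ := weyl_scale (σ := σ) b hb η hη hη1 n hn
  obtain ⟨τ, hτ⟩ : ∃ τ, τ = 1 - η / 2 := ⟨_, rfl⟩
  have hτ0 : 0 ≤ τ := by rw [hτ]; linarith
  have hτ1 : τ < 1 := by rw [hτ]; linarith
  rw [← hτ] at hweyl
  obtain ⟨e, he⟩ : ∃ e, e = 5 * c := ⟨_, rfl⟩
  obtain ⟨f, hf⟩ : ∃ f, f = (n + 1) * c := ⟨_, rfl⟩
  obtain ⟨q₀, hq₀⟩ := exists_pow_lt_of_lt_one (show 0 < 1 / (b : ℝ) ^ (e + f + 1) by positivity) hτ1
  obtain ⟨q, hq⟩ : ∃ q, q = q₀ + 1 := ⟨_, rfl⟩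
  obtain ⟨y, hy⟩ : ∃ y, y = τ ^ q := ⟨_, rfl⟩
  have hy0 : 0 ≤ y := by rw [hy]; exact pow_nonneg hτ0 _
  have hyb : y ≤ 1 / (b : ℝ) ^ (e + f + 1) := by
    rw [hy, hq]
    exact (pow_le_pow_of_le_one hτ0 hτ1.le (by omega)).trans hq₀.le
  obtain ⟨K', hK'⟩ : ∃ K' : ℕ, K' = b.factorial * K := ⟨_, rfl⟩
  have hf1 : 1 ≤ b.factorial := b.factorial_pos
  have hf1r : (1 : ℝ) ≤ b.factorial := by exact_mod_cast hf1
  have hK'1 : 1 ≤ K' := by rw [hK']; exact Nat.mul_pos hf1 hK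
  obtain ⟨C₁, hC₁⟩ : ∃ C₁ : ℝ, C₁ = 15 * K' ^ 2 := ⟨_, rfl⟩
  have hC₁0 : 0 ≤ C₁ := by rw [hC₁]; positivity
  obtain ⟨D, hD⟩ : ∃ D : ℝ, D = (n : ℝ) ^ q := ⟨_, rfl⟩
  have hn1 : (1 : ℝ) ≤ n := by exact_mod_cast hn
  have hD1 : 1 ≤ D := by rw [hD]; exact one_le_pow₀ hn1
  obtain ⟨p, hp⟩ : ∃ p, p = 2 ^ (n - 1) * s * q := ⟨_, rfl⟩
  have hp2 : 2 * p = 2 ^ n * s * q := by
    rw [hp]
    have : 2 ^ n = 2 * 2 ^ (n - 1) := by rw [← pow_succ']; congr 1; omega
    rw [this]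
    ring
  refine ⟨p, 2 * C₁ * D * (b : ℝ) ^ e + D * (b : ℝ) ^ f, ?_, ?_, fun k M hM w hw l hl A hA1 hA2 g hg => ?_⟩
  · rw [hp, hq]
    exact Nat.mul_pos (Nat.mul_pos (by positivity) hs1) (by omega)
  · positivity
  have hM0 : 1 ≤ M := by rw [hM]; exact Nat.one_le_pow _ _ (by omega)
  have hMr : (0 : ℝ) < M := by exact_mod_cast hM0
  have hWt := wt_of hw
  obtain ⟨α, hα⟩ : ∃ α : ℝ, α = b.factorial * A := ⟨_, rfl⟩
  have habs : |α| = b.factorial * |A| := by rw [hα, abs_mul, abs_of_nonneg (Nat.cast_nonneg _)]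
  have hα1 : 1 ≤ K' * |α| := by
    rw [habs, hK']
    push_cast
    have h0 := abs_nonneg A
    calc (1 : ℝ) ≤ K * |A| := hA1
      _ ≤ (b.factorial * b.factorial) * (K * |A|) := le_mul_of_one_le_left (by positivity) (by nlinarith)
      _ = _ := by ring
  have hα2 : |α| ≤ K' := by
    rw [habs, hK']
    push_cast
    exact mul_le_mul_of_nonneg_left hA2 (by positivity)
  apply moment_abs b hb M _ (2 * p) (fun t => norm_nonneg _) (fun t => Es_norm_le hWt _ _ 1 fun x => by rw [norm_ee])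
    (fun L => MajR M α (b ^ (c * L)) (b ^ (2 * c * L))) C₁ D y hC₁0 hD1 hy0 e f (k / c) hyb
  · rw [hM]
    push_cast
    apply pow_le_pow_right₀ (by linarith)
    rw [hf]
    have h1 := Nat.div_add_mod k c
    have h2 := Nat.mod_lt k (show 0 < c by omega)
    calc (n + 1) * k ≤ (n + 1) * (c * (k / c + 1)) := Nat.mul_le_mul_left _ (by rw [mul_add]; omega)
      _ = _ := by ring
  · intro L hL
    have h1 := count_majR M α K' (b ^ (c * L)) (b ^ (2 * c * L)) hM0 hα1 hα2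
    refine h1.trans ?_
    obtain ⟨X, hX⟩ : ∃ X : ℝ, X = (b : ℝ) ^ (c * L) := ⟨_, rfl⟩
    have hX1 : 1 ≤ X := by rw [hX]; exact one_le_pow₀ (by linarith)
    have e1 : (((b ^ (c * L) : ℕ) : ℝ)) = X := by rw [hX]; push_cast; rfl
    have e2 : (((b ^ (2 * c * L) : ℕ) : ℝ)) = X ^ 2 := by
      rw [hX]; push_cast; rw [← pow_mul]; congr 1; ring
    have e3 : (b : ℝ) ^ (e * L) = X ^ 5 := by rw [hX, he, ← pow_mul]; congr 1; ring
    have hK'r : (1 : ℝ) ≤ K' := by exact_mod_cast hK'1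
    rw [e1, e2, e3, hC₁]
    have q1 : 2 * ((K' : ℝ) * X + X ^ 2) + 1 ≤ 5 * K' * X ^ 2 := by
      have r1 : (K' : ℝ) * X ≤ K' * X ^ 2 := by
        apply mul_le_mul_of_nonneg_left _ (by linarith)
        exact le_self_pow₀ hX1 two_ne_zero
      have r2 : X ^ 2 ≤ K' * X ^ 2 := le_mul_of_one_le_left (by positivity) hK'r
      have r3 : 1 ≤ K' * X ^ 2 := one_le_mul_of_one_le_of_one_le hK'r (one_le_pow₀ hX1)
      linarith
    have q2 : 2 * X ^ 2 * K' + 1 ≤ 3 * K' * X ^ 2 := by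
      have r3 : 1 ≤ K' * X ^ 2 := one_le_mul_of_one_le_of_one_le hK'r (one_le_pow₀ hX1)
      linarith
    calc X * ((2 * ((K' : ℝ) * X + X ^ 2) + 1) * (2 * X ^ 2 * K' + 1)) ≤ X * ((5 * K' * X ^ 2) * (3 * K' * X ^ 2)) := by
          apply mul_le_mul_of_nonneg_left _ (by linarith)
          apply mul_le_mul q1 q2 (by positivity) (by positivity)
      _ = _ := by ring
  · intro t L hL1 hL2 hnot
    have hck : c * L ≤ k := (Nat.mul_le_mul_left c hL2).trans (Nat.mul_div_le k c)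
    have hPD := PD_smul l A (t / M) g hg
    have e1 : (fun x : σ → ℤ => ee ((t : ℝ) * (g x / M))) = (fun x => ee ((t : ℝ) / M * g x)) := by
      funext x
      congr 1
      ring
    rw [e1]
    rcases hweyl k L hL1 hck w hw l hl _ _ hPD with h | ⟨Q, a, hQ1, hQ2, hQ3⟩
    · rw [hp2, pow_mul]
      refine (pow_le_pow_left₀ (pow_nonneg (norm_nonneg _) _) h q).trans (le_of_eq ?_)
      rw [mul_pow, hD, hy, ← pow_mul, ← pow_mul, mul_comm L q]
    · exfalso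
      apply hnot
      have hQr : (0 : ℝ) < Q := by exact_mod_cast hQ1
      have hMk : (M : ℝ) = (b : ℝ) ^ ((n + 1) * k) := by rw [hM]; push_cast; rfl
      refine ⟨Q, a, hQ1, hQ2, ?_⟩
      have h2 : |α * Q * t - a * M| = |(b.factorial : ℝ) * ((t : ℝ) / M * A) - a / Q| * (Q * M) := by
        have e : α * Q * t - a * M = ((b.factorial : ℝ) * ((t : ℝ) / M * A) - a / Q) * (Q * M) := by
          rw [hα]
          field_simp
        rw [e, abs_mul, abs_of_pos (by positivity : (0 : ℝ) < (Q : ℝ) * M)]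
      rw [h2]
      calc |(b.factorial : ℝ) * ((t : ℝ) / M * A) - a / Q| * (Q * M) =
            (|(b.factorial : ℝ) * ((t : ℝ) / M * A) - a / Q| * (b : ℝ) ^ ((n + 1) * k)) * Q := by rw [hMk]; ring
        _ ≤ (b : ℝ) ^ (c * L) * (b : ℝ) ^ (c * L) := by
            apply mul_le_mul hQ3 _ hQr.le (by positivity)
            exact_mod_cast hQ2
        _ = _ := by push_cast; rw [← pow_add]; congr 1; ring

end Pool.Agent.K6.H45.MV
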