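import Pool.Agent.K6.H45.MV.Energy
import Pool.Agent.R459.Nbhd

set_option autoImplicit false
set_option linter.unusedSectionVars false

/-! Goldbach pairs in windows for all the even integers near almost all values of a polynomial in several variables at
points with restricted digits. -/

namespace Pool.Agent.K6.H45.MV
open Finset
open Pool.Agent.TH212.EH (En)

variable {σ : Type} [DecidableEq σ] [Fintype σ]

theorem near_poly (b d B A W U m₀ : ℕ) (hb : 2 ≤ b) (hd : 2 ≤ d) (ε : ℝ) (hε : 0 < ε) (Q : ℕ → Prop)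
    (hQ : ∀ m : ℕ, m₀ ≤ m → 2 ∣ m → Pool.Agent.W93.PG.WinP ε A m → Q m) :
    ∃ k₀ : ℕ, ∀ k : ℕ, k₀ ≤ k → ∀ D : σ → ℕ → Finset ℕ, (∀ j, ∀ i < k, D j i ⊆ range b ∧ 2 ≤ (D j i).card) →
      ∀ F : MvPolynomial σ ℝ, F.totalDegree ≤ d → ∀ μ : σ →₀ ℕ, ∑ i, μ i = d → 1 ≤ B * |F.coeff μ| → |F.coeff μ| ≤ B →
      (∀ q ∈ Pts b D k, ev F (fun j => (q j : ℤ)) ≤ B * (b : ℝ) ^ (d * k)) →
      ∀ P : (σ → ℕ) → Prop, [DecidablePred P] →
      (∀ q, P q → ∃ m : ℕ, 0 < m ∧ Even m ∧ |(m : ℝ) - ev F (fun j => (q j : ℤ))| ≤ (k : ℝ) ^ W ∧ ¬ Q m) →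
      (((Pts b D k).filter P).card : ℝ) ≤ (Pts b D k).card / (k : ℝ) ^ U := by
  classical
  obtain ⟨p, C, hp, hC, hE⟩ := poly_energy (σ := σ) b hb d hd B
  obtain ⟨N₀, hN⟩ := Pool.Agent.R459.near_even p A (B + 1) 1 (W + 1) U m₀ hp ε hε Q hQ
  obtain ⟨K2, hK2⟩ := exists_nat_ge C
  refine ⟨N₀ + K2 + 2, fun k hk D hD F hF μ hμ h1 h2 h3 P _ hP => ?_⟩
  obtain ⟨N, hNd⟩ : ∃ N, N = b ^ (d * k) := ⟨_, rfl⟩
  have hkN : k ≤ N := by
    rw [hNd]
    calc k ≤ d * k := Nat.le_mul_of_pos_left _ (by omega)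
      _ ≤ b ^ (d * k) := (Nat.lt_pow_self (by omega)).le
  have hk2 : (2 : ℝ) ≤ k := by exact_mod_cast (by omega : 2 ≤ k)
  have hk0 : (0 : ℝ) < k := by linarith
  have hN1 : 1 ≤ N := by omega
  have hN0 : (1 : ℝ) ≤ N := by exact_mod_cast hN1
  have hNr : (N : ℝ) = (b : ℝ) ^ (d * k) := by rw [hNd]; push_cast; rfl
  have hlog : (k : ℝ) ≤ Real.log N := by
    rw [hNr, Real.log_pow]
    have hlb : 1 / 2 ≤ Real.log b := by
      have e1 : Real.log 2 ≤ Real.log b := Real.log_le_log (by norm_num) (by exact_mod_cast hb)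
      have e2 := Real.log_two_gt_d9
      linarith
    have hdr : (2 : ℝ) ≤ d := by exact_mod_cast hd
    push_cast
    calc (k : ℝ) = (2 * k) * (1 / 2) := by ring
      _ ≤ (d * k) * Real.log b := mul_le_mul (by nlinarith) hlb (by norm_num) (by positivity)
  have hfc : Fintype.card {q // q ∈ Pts b D k} = (Pts b D k).card := Fintype.card_coe _
  have r1 := hN N (by omega) {q // q ∈ Pts b D k} (fun i => round (ev F (fun j => (i.1 j : ℤ)))) (fun i => by
    have e1 := h3 i.1 i.2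
    rw [← hNr] at e1
    have e2 := abs_sub_round (ev F (fun j => (i.1 j : ℤ)))
    have e3 : ((round (ev F (fun j => (i.1 j : ℤ))) : ℤ) : ℝ) ≤ (((B + 1 : ℕ) * N : ℤ) : ℝ) := by
      push_cast
      have := (abs_le.1 e2).1
      linarith
    exact_mod_cast e3) (by
    have e1 := hE k D hD F hF μ hμ h1 h2
    rw [← hNd] at e1
    refine e1.trans ?_
    rw [pow_one]
    apply mul_le_mul_of_nonneg_right _ (by positivity)
    have e2 : (K2 : ℝ) ≤ k := by exact_mod_cast (by omega : K2 ≤ k)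
    linarith) (univ.filter (fun i => P i.1)) (fun i hi => by
    obtain ⟨m, g1, g2, g3, g4⟩ := hP i.1 (mem_filter.1 hi).2
    refine ⟨m, g1, g2, ?_, g4⟩
    push_cast
    have e1 := abs_sub_round (ev F (fun j => (i.1 j : ℤ)))
    have e2 : |(m : ℝ) - round (ev F (fun j => (i.1 j : ℤ)))| ≤ |(m : ℝ) - ev F (fun j => (i.1 j : ℤ))| +
        |ev F (fun j => (i.1 j : ℤ)) - round (ev F (fun j => (i.1 j : ℤ)))| := abs_sub_le _ _ _
    have e3 : (1 : ℝ) ≤ (k : ℝ) ^ W := one_le_pow₀ (by linarith)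
    calc |(m : ℝ) - round (ev F (fun j => (i.1 j : ℤ)))| ≤ (k : ℝ) ^ W + 1 / 2 := by linarith
      _ ≤ (k : ℝ) ^ W * 2 := by linarith
      _ ≤ (k : ℝ) ^ W * k := mul_le_mul_of_nonneg_left hk2 (by positivity)
      _ = (k : ℝ) ^ (W + 1) := by ring
      _ ≤ Real.log N ^ (W + 1) := pow_le_pow_left₀ hk0.le hlog _)
  rw [hfc] at r1
  have r2 : ((Pts b D k).card : ℝ) / Real.log N ^ U ≤ (Pts b D k).card / (k : ℝ) ^ U :=
    div_le_div_of_nonneg_left (Nat.cast_nonneg _) (by positivity) (pow_le_pow_left₀ hk0.le hlog _)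
  refine le_trans ?_ (r1.trans r2)
  apply Nat.cast_le.2
  have e : ((Pts b D k).filter P) ⊆ ((univ : Finset {q // q ∈ Pts b D k}).filter (fun i => P i.1)).image (fun i => i.1) := by
    intro n hn
    rw [mem_filter] at hn
    rw [mem_image]
    exact ⟨⟨n, hn.1⟩, mem_filter.2 ⟨mem_univ _, hn.2⟩, rfl⟩
  exact (card_le_card e).trans card_image_le

end Pool.Agent.K6.H45.MV
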