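import Pool.Agent.K6.H45.MV.Weyl
import Pool.Agent.TH872.Sq.W4

set_option autoImplicit false
set_option linter.unusedSectionVars false

/-! The Weyl inequality at a given scale, and moments. -/

namespace Pool.Agent.K6.H45.MV
open Finset
open Pool.Agent.H807R2.Dav
open Pool.Agent.TH872.Sq

variable {σ : Type} [DecidableEq σ]

/-- blocks of length `L` at increasing positions -/
def Sep (L : ℕ) : ℕ → List (σ × ℕ) → ℕ → Prop
  | a, [], r₀ => a ≤ r₀
  | a, p :: js, r₀ => a ≤ p.2 ∧ Sep L (p.2 + L) js r₀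

/-- positions with a given sum -/
lemma place (L : ℕ) (l : List σ) : ∀ a S t : ℕ, t ≤ (l.length + 1) * S → ∃ (js : List (σ × ℕ)) (r₀ : ℕ),
    js.map Prod.fst = l ∧ Sep L a js r₀ ∧ r₀ ≤ a + l.length * L + S ∧
    2 * ((js.map Prod.snd).sum + r₀) = 2 * t + 2 * (l.length + 1) * a + L * (l.length * (l.length + 1)) := by
  induction l with
  | nil =>
    intro a S t ht
    refine ⟨[], a + t, rfl, ?_, ?_, ?_⟩
    · unfold Sep; omega
    · simp only [List.length_nil, zero_mul, add_zero, zero_add, one_mul] at ht ⊢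
      omega
    · simp only [List.map_nil, List.sum_nil, List.length_nil]
      ring
  | cons j l ih =>
    intro a S t ht
    obtain ⟨n, hn⟩ : ∃ n, n = l.length := ⟨_, rfl⟩
    rw [List.length_cons, ← hn] at ht ⊢
    rw [← hn] at ih
    obtain ⟨s₁, hs₁⟩ : ∃ s₁, s₁ = t / (n + 2) := ⟨_, rfl⟩
    have h1 : (n + 2) * s₁ + t % (n + 2) = t := by rw [hs₁]; exact Nat.div_add_mod t (n + 2)
    have h2 : t % (n + 2) < n + 2 := Nat.mod_lt _ (by omega)
    have h3 : s₁ ≤ S := by
      rw [hs₁]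
      calc t / (n + 2) ≤ ((n + 1 + 1) * S) / (n + 2) := Nat.div_le_div_right ht
        _ = S := by rw [Nat.mul_div_cancel_left _ (by omega)]
    obtain ⟨S', hS'⟩ : ∃ S', S = s₁ + S' := ⟨S - s₁, by omega⟩
    have h4 : t % (n + 2) ≤ (n + 1) * S' := by
      rcases Nat.eq_zero_or_pos S' with h | h
      · rw [h] at hS' ⊢
        have : t ≤ (n + 2) * s₁ := by rw [hS'] at ht; exact ht
        omega
      · have : n + 1 ≤ (n + 1) * S' := Nat.le_mul_of_pos_right _ h
        omega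
    obtain ⟨js, r₀, g1, g2, g3, g4⟩ := ih (a + s₁ + L) S' (t % (n + 2)) h4
    refine ⟨(j, a + s₁) :: js, r₀, ?_, ?_, ?_, ?_⟩
    · rw [List.map_cons, g1]
    · exact ⟨by omega, g2⟩
    · calc r₀ ≤ a + s₁ + L + n * L + S' := g3
        _ = _ := by rw [hS']; ring
    · rw [List.map_cons, List.sum_cons]
      have e1 : 2 * (a + s₁ + (js.map Prod.snd).sum + r₀) = 2 * (a + s₁) + 2 * ((js.map Prod.snd).sum + r₀) := by ring
      rw [e1, g4]
      nlinarith

lemma sep_le (L : ℕ) (js : List (σ × ℕ)) : ∀ a r₀, Sep L a js r₀ → a ≤ r₀ := by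
  induction js with
  | nil => intro a r₀ h; exact h
  | cons p js ih =>
    intro a r₀ h
    have := ih _ _ h.2
    have := h.1
    omega

/-- the slots of the blocks -/
lemma slots (L J : ℕ) (j₀ : σ) (js : List (σ × ℕ)) : ∀ a r₀, Sep L a js r₀ →
    (js.flatMap (fun q => blk q.1 q.2 L) ++ blk j₀ r₀ J).Nodup ∧
    ∀ s ∈ js.flatMap (fun q => blk q.1 q.2 L) ++ blk j₀ r₀ J, a ≤ s.2 ∧ s.2 < r₀ + J ∨ s.2 < r₀ ∧ a ≤ s.2 := by
  induction js with
  | nil =>
    intro a r₀ h
    rw [List.flatMap_nil, List.nil_append]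
    refine ⟨nodup_blk _ _ _, fun s hs => ?_⟩
    rw [mem_blk] at hs
    have : a ≤ r₀ := h
    left
    omega
  | cons p js ih =>
    intro a r₀ h
    obtain ⟨g1, g2⟩ := ih _ _ h.2
    have h0 := sep_le L js _ _ h.2
    have h1 := h.1
    rw [List.flatMap_cons, List.append_assoc]
    refine ⟨?_, fun s hs => ?_⟩
    · rw [List.nodup_append]
      refine ⟨nodup_blk _ _ _, g1, ?_⟩
      intro s hs t ht hst
      rw [mem_blk] at hs
      subst hst
      have := g2 s ht
      omega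
    · rw [List.mem_append] at hs
      rcases hs with hs | hs
      · rw [mem_blk] at hs
        right
        omega
      · have := g2 s hs
        omega

/-- all slots at the positions below `k` -/
noncomputable def full (σ : Type) [DecidableEq σ] [Fintype σ] (k : ℕ) : List (σ × ℕ) := (univ : Finset σ).toList.flatMap (fun j => blk j 0 k)

lemma mem_full [Fintype σ] (k : ℕ) (s : σ × ℕ) : s ∈ full σ k ↔ s.2 < k := by
  unfold full
  rw [List.mem_flatMap]
  constructor
  · rintro ⟨j, _, h⟩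
    rw [mem_blk] at h
    omega
  · intro h
    refine ⟨s.1, by simp, ?_⟩
    rw [mem_blk]
    exact ⟨rfl, by omega, by omega⟩

/-- **The Weyl inequality** at the scale `L` -/
theorem weyl_scale [Fintype σ] (b : ℕ) (hb : 2 ≤ b) (η : ℝ) (hη : 0 < η) (hη1 : η ≤ 1) (n : ℕ) (hn : 1 ≤ n) : ∃ s c : ℕ, 1 ≤ s ∧ 1 ≤ c ∧
    ∀ k L : ℕ, 1 ≤ L → c * L ≤ k → ∀ (w : σ → ℕ → ℕ → ℝ), (∀ j, Dig b η (w j)) → ∀ (l : List σ), l.length = n + 1 →
    ∀ (A : ℝ) (ψ : (σ → ℤ) → ℝ), PD l A ψ →
    ‖Es b w (full σ k) (fun x => ee (ψ x))‖ ^ (2 ^ n * s) ≤ n * (1 - η / 2) ^ L ∨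
    ∃ Q : ℕ, ∃ a : ℤ, 1 ≤ Q ∧ Q ≤ b ^ (c * L) ∧ |b.factorial * A - a / Q| * (b : ℝ) ^ ((n + 1) * k) ≤ (b : ℝ) ^ (c * L) := by
  have hb2 : (2 : ℝ) ≤ b := by exact_mod_cast hb
  have hb0 : (0 : ℝ) < b := by linarith
  obtain ⟨hg0, hg1⟩ := g0_bounds b hb η hη hη1
  -- the power `s`
  obtain ⟨s₀, hs₀⟩ : ∃ s₀ : ℕ, (1 - η) * (1 + 2 * b * (g0 b η) ^ s₀) ^ (4 * n) ≤ 1 - η / 2 := by
    have h1 : Filter.Tendsto (fun s : ℕ => (1 - η) * (1 + 2 * b * (g0 b η) ^ s) ^ (4 * n)) Filter.atTop (nhds ((1 - η) * (1 + 2 * b * 0) ^ (4 * n))) := by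
      apply Filter.Tendsto.const_mul
      apply Filter.Tendsto.pow
      apply Filter.Tendsto.const_add
      apply Filter.Tendsto.const_mul
      exact tendsto_pow_atTop_nhds_zero_of_lt_one hg0 hg1
    rw [mul_zero, add_zero, one_pow, mul_one] at h1
    obtain ⟨s, hs⟩ := (h1.eventually (ge_mem_nhds (show 1 - η < 1 - η / 2 by linarith))).exists
    exact ⟨s, hs⟩
  obtain ⟨s, hs⟩ : ∃ s, s = s₀ + 1 := ⟨_, rfl⟩
  have hτ : (1 - η) * (1 + 2 * b * (g0 b η) ^ s) ^ (4 * n) ≤ 1 - η / 2 := by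
    refine le_trans ?_ hs₀
    apply mul_le_mul_of_nonneg_left _ (by linarith)
    apply pow_le_pow_left₀ (by positivity)
    have : (g0 b η) ^ s ≤ (g0 b η) ^ s₀ := pow_le_pow_of_le_one hg0 hg1.le (by omega)
    have := mul_le_mul_of_nonneg_left this (show 0 ≤ 2 * (b : ℝ) by linarith)
    linarith
  obtain ⟨c, hc⟩ : ∃ c, c = 4 * (n + 1) ^ 2 := ⟨_, rfl⟩
  refine ⟨s, c, by omega, by rw [hc]; nlinarith, fun k L hL hk w hw l hl A ψ hψ => ?_⟩
  obtain ⟨J, hJ⟩ : ∃ J, J = 2 * (n * L) + 2 := ⟨_, rfl⟩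
  have hnL : 1 ≤ n * L := Nat.mul_pos hn hL
  have hT : (1 - η) ^ L * (1 + 2 * b * (g0 b η) ^ s) ^ J ≤ (1 - η / 2) ^ L := by
    have h1 : 0 ≤ 2 * b * (g0 b η) ^ s := by have := pow_nonneg hg0 s; positivity
    calc (1 - η) ^ L * (1 + 2 * b * (g0 b η) ^ s) ^ J ≤ (1 - η) ^ L * (1 + 2 * b * (g0 b η) ^ s) ^ (4 * n * L) := by
          apply mul_le_mul_of_nonneg_left _ (pow_nonneg (by linarith) _)
          exact pow_le_pow_right₀ (by linarith) (by rw [hJ]; nlinarith)
      _ = ((1 - η) * (1 + 2 * b * (g0 b η) ^ s) ^ (4 * n)) ^ L := by rw [mul_pow, ← pow_mul]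
      _ ≤ (1 - η / 2) ^ L := pow_le_pow_left₀ (mul_nonneg (by linarith) (by positivity)) hτ L
  have hT' : (1 - η) ^ L ≤ (1 - η / 2) ^ L := pow_le_pow_left₀ (by linarith) (by linarith) L
  -- the directions
  obtain ⟨l', j₀, rfl⟩ : ∃ (l' : List σ) (j₀ : σ), l = l' ++ [j₀] := by
    have hne : l ≠ [] := by
      intro h
      rw [h] at hl
      simp at hl
    exact ⟨l.dropLast, l.getLast hne, (List.dropLast_append_getLast hne).symm⟩
  have hl' : l'.length = n := by
    rw [List.length_append, List.length_singleton] at hl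
    omega
  -- numerical facts
  obtain ⟨S, hS⟩ : ∃ S, k = J + n * L + S := by
    refine ⟨k - (J + n * L), ?_⟩
    have : J + n * L ≤ c * L := by rw [hJ, hc]; nlinarith
    omega
  obtain ⟨l0, hl0⟩ : ∃ l0, 2 * l0 = L * (n * (n + 1)) := by
    obtain ⟨q, hq⟩ := (Nat.even_mul_succ_self n).two_dvd
    exact ⟨L * q, by rw [hq]; ring⟩
  obtain ⟨l1, hl1⟩ : ∃ l1, l1 = l0 + (n + 1) * S := ⟨_, rfl⟩
  by_cases hcase : ∀ l, l0 ≤ l → l ≤ l1 → ∃ g : ℕ, 0 < g ∧ g < b ^ (n * L) ∧
      nn (b.factorial * A * (b : ℝ) ^ l * g) ≤ 1 / (b : ℝ) ^ J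
  · right
    obtain ⟨Q, a, hQ1, hQ2, hQ3⟩ := dichotomy b (n * L) J hb (by omega) l0 l1 (by omega) _ hcase
    refine ⟨Q, a, hQ1, hQ2.trans (Nat.pow_le_pow_right (by omega) ?_), ?_⟩
    · rw [hc]
      nlinarith
    · obtain ⟨e, he⟩ : ∃ e, e = n * J + l0 := ⟨_, rfl⟩
      have h4 : (n + 1) * k = (J + l1) + e := by
        rw [hl1, he, hS]
        have : (n + 1) * (J + n * L + S) * 2 = 2 * (J + (l0 + (n + 1) * S) + (n * J + l0)) := by
          have h5 : 2 * (J + (l0 + (n + 1) * S) + (n * J + l0)) = 2 * J + 2 * l0 + 2 * l0 + 2 * (n + 1) * S + 2 * n * J := by ring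
          rw [h5, hl0]
          ring
        omega
      rw [h4, pow_add (b : ℝ) (J + l1) e, ← mul_assoc]
      calc |b.factorial * A - a / Q| * (b : ℝ) ^ (J + l1) * (b : ℝ) ^ e ≤
          (b : ℝ) ^ (n * L) * (b : ℝ) ^ e := mul_le_mul_of_nonneg_right hQ3 (by positivity)
        _ = (b : ℝ) ^ (n * L + e) := by rw [pow_add]
        _ ≤ _ := by
          apply pow_le_pow_right₀ (by linarith)
          rw [he, hJ, hc]
          nlinarith
  · left
    push Not at hcase
    obtain ⟨t, ht1, ht2, ht⟩ := hcase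
    obtain ⟨js, r₀, g1, g2, g3, g4⟩ := place L l' 0 S (t - l0) (by rw [hl']; omega)
    rw [hl'] at g3 g4
    have hsum : (js.map Prod.snd).sum + r₀ = t := by
      have : 2 * ((js.map Prod.snd).sum + r₀) = 2 * t := by
        rw [g4]
        rw [← hl0]
        omega
      omega
    have hjl : js.length = n := by
      have := congrArg List.length g1
      rw [List.length_map] at this
      rw [this, hl']
    obtain ⟨p, js', rfl⟩ : ∃ p js', js = p :: js' := by
      cases js with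
      | nil => rw [List.length_nil] at hjl; omega
      | cons p js' => exact ⟨p, js', rfl⟩
    have hjl' : js'.length + 1 = n := by rwa [List.length_cons] at hjl
    obtain ⟨q1, q2⟩ := slots L J j₀ (p :: js') 0 r₀ g2
    have hns : 2 ^ n * s ≠ 0 := (Nat.mul_pos (by positivity) (by omega)).ne'
    apply (pow_le_pow_left₀ (norm_nonneg _) ?_ _).trans
    rotate_left
    · exact (((n : ℝ) * (1 - η / 2) ^ L) ^ (((2 ^ n * s : ℕ) : ℝ)⁻¹))
    · apply Es_sub (wt_of hw) _ _ q1
      · intro s hs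
        rw [mem_full]
        have := q2 s hs
        omega
      · intro x
        have hmain := weyl_core hb hη hw L J s ((1 - η / 2) ^ L) hT hT' j₀ r₀ js' p A (fun y => ψ (x + y)) (by
            rw [g1]
            exact PD_shift _ _ _ hψ x) (by
            intro g hg0 hgL
            rw [hsum]
            have := ht g hg0 (by
              refine hgL.trans_le (Nat.pow_le_pow_right (by omega) ?_)
              rw [hjl']
              exact le_of_eq (mul_comm _ _))
            rw [← mul_assoc]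
            exact this)
        have hcast : ((js'.length : ℝ) + 1) = n := by exact_mod_cast hjl'
        rw [hjl', hcast] at hmain
        have hpos : 0 ≤ (n : ℝ) * (1 - η / 2) ^ L := by
          have : 0 ≤ 1 - η / 2 := by linarith
          positivity
        rw [← Real.pow_rpow_inv_natCast (norm_nonneg _) hns]
        exact Real.rpow_le_rpow (by positivity) hmain (by positivity)
    · have hpos : 0 ≤ (n : ℝ) * (1 - η / 2) ^ L := by
        have : 0 ≤ 1 - η / 2 := by linarith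
        positivity
      exact le_of_eq (Real.rpow_inv_natCast_pow hpos hns)

end Pool.Agent.K6.H45.MV
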