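import Pool.Agent.TH872.Sq.W2

set_option autoImplicit false
set_option linter.unusedSectionVars false

/-! Averages over independent digits of several variables, one digit at a time. -/

namespace Pool.Agent.K6.H45.MV
open Finset
open Pool.Agent.TH872.Sq

variable {σ : Type} [DecidableEq σ]

/-- the vector with the coordinate `t` at `j` and zeros elsewhere -/
def sg (j : σ) (t : ℤ) : σ → ℤ := Pi.single j t

lemma sg_add (j : σ) (s t : ℤ) : sg j (s + t) = sg j s + sg j t := Pi.single_add (f := fun _ => ℤ) j s t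

lemma sg_zero (j : σ) : sg j 0 = 0 := Pi.single_zero (M := fun _ => ℤ) j

section Es
variable {E : Type} [AddCommGroup E] [Module ℝ E]

/-- the average over the digits in the slots of a list; the slot `(j, i)` is the digit of the variable `j` at the
position `i` -/
noncomputable def Es (b : ℕ) (w : σ → ℕ → ℕ → ℝ) : List (σ × ℕ) → ((σ → ℤ) → E) → E
  | [], F => F 0
  | s :: l, F => ∑ a ∈ range b, w s.1 s.2 a • Es b w l (fun x => F (sg s.1 ((a : ℤ) * (b : ℤ) ^ s.2) + x))

lemma Es_nil (b : ℕ) (w : σ → ℕ → ℕ → ℝ) (F : (σ → ℤ) → E) : Es b w [] F = F 0 := rfl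

lemma Es_cons (b : ℕ) (w : σ → ℕ → ℕ → ℝ) (s : σ × ℕ) (l : List (σ × ℕ)) (F : (σ → ℤ) → E) :
    Es b w (s :: l) F = ∑ a ∈ range b, w s.1 s.2 a • Es b w l (fun x => F (sg s.1 ((a : ℤ) * (b : ℤ) ^ s.2) + x)) := rfl

lemma Es_sum (b : ℕ) (w : σ → ℕ → ℕ → ℝ) (l : List (σ × ℕ)) {ι : Type*} (I : Finset ι) (F : ι → (σ → ℤ) → E) :
    Es b w l (fun x => ∑ i ∈ I, F i x) = ∑ i ∈ I, Es b w l (F i) := by
  induction l generalizing F with
  | nil => rfl
  | cons s l ih =>
    simp only [Es_cons]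
    rw [sum_comm]
    apply sum_congr rfl
    intro a _
    rw [ih (fun i x => F i (sg s.1 ((a : ℤ) * (b : ℤ) ^ s.2) + x)), smul_sum]

lemma Es_smul (b : ℕ) (w : σ → ℕ → ℕ → ℝ) (l : List (σ × ℕ)) (c : ℝ) (F : (σ → ℤ) → E) :
    Es b w l (fun x => c • F x) = c • Es b w l F := by
  induction l generalizing F with
  | nil => rfl
  | cons s l ih =>
    simp only [Es_cons]
    rw [smul_sum]
    apply sum_congr rfl
    intro a _
    rw [ih (fun x => F (sg s.1 ((a : ℤ) * (b : ℤ) ^ s.2) + x)), smul_comm]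

lemma Es_append (b : ℕ) (w : σ → ℕ → ℕ → ℝ) (l l' : List (σ × ℕ)) (F : (σ → ℤ) → E) :
    Es b w (l ++ l') F = Es b w l (fun x => Es b w l' (fun y => F (x + y))) := by
  induction l generalizing F with
  | nil =>
    rw [List.nil_append, Es_nil]
    congr 1
    funext y
    rw [zero_add]
  | cons s l ih =>
    rw [List.cons_append]
    simp only [Es_cons]
    apply sum_congr rfl
    intro a _
    rw [ih]
    congr 2
    funext x
    congr 1
    funext y
    rw [add_assoc]

lemma Es_perm (b : ℕ) (w : σ → ℕ → ℕ → ℝ) {l l' : List (σ × ℕ)} (h : l.Perm l') (F : (σ → ℤ) → E) :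
    Es b w l F = Es b w l' F := by
  induction h generalizing F with
  | nil => rfl
  | cons s _ ih =>
    simp only [Es_cons]
    apply sum_congr rfl
    intro a _
    rw [ih]
  | swap s t l =>
    simp only [Es_cons, smul_sum]
    rw [sum_comm]
    apply sum_congr rfl
    intro a _
    apply sum_congr rfl
    intro a' _
    rw [smul_comm]
    congr 3
    funext x
    rw [add_left_comm]
  | trans _ _ ih1 ih2 => rw [ih1, ih2]

end Es

/-- nonnegative weights with the sum one -/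
structure Wt (b : ℕ) (w : σ → ℕ → ℕ → ℝ) : Prop where
  nonneg : ∀ j i a, 0 ≤ w j i a
  sum : ∀ j i, ∑ a ∈ range b, w j i a = 1

lemma Es_mono {b : ℕ} {w : σ → ℕ → ℕ → ℝ} (hw : Wt b w) (l : List (σ × ℕ)) (F G : (σ → ℤ) → ℝ) (h : ∀ x, F x ≤ G x) :
    Es b w l F ≤ Es b w l G := by
  induction l generalizing F G with
  | nil => exact h 0
  | cons s l ih =>
    simp only [Es_cons]
    apply sum_le_sum
    intro a _
    simp only [smul_eq_mul]
    exact mul_le_mul_of_nonneg_left (ih _ _ fun x => h _) (hw.nonneg _ _ _)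

lemma Es_const {b : ℕ} {w : σ → ℕ → ℕ → ℝ} (hw : Wt b w) (l : List (σ × ℕ)) {E : Type} [AddCommGroup E] [Module ℝ E] (c : E) :
    Es b w l (fun _ => c) = c := by
  induction l with
  | nil => rfl
  | cons s l ih => rw [Es_cons, ih, ← sum_smul, hw.sum, one_smul]

lemma Es_norm {b : ℕ} {w : σ → ℕ → ℕ → ℝ} (hw : Wt b w) (l : List (σ × ℕ)) (F : (σ → ℤ) → ℂ) :
    ‖Es b w l F‖ ≤ Es b w l (fun x => ‖F x‖) := by
  induction l generalizing F with
  | nil => exact le_rfl
  | cons s l ih =>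
    simp only [Es_cons]
    refine (norm_sum_le _ _).trans ?_
    apply sum_le_sum
    intro a _
    rw [norm_smul, Real.norm_of_nonneg (hw.nonneg _ _ _), smul_eq_mul]
    exact mul_le_mul_of_nonneg_left (ih _) (hw.nonneg _ _ _)

lemma Es_norm_le {b : ℕ} {w : σ → ℕ → ℕ → ℝ} (hw : Wt b w) (l : List (σ × ℕ)) (F : (σ → ℤ) → ℂ) (C : ℝ)
    (h : ∀ x, ‖F x‖ ≤ C) : ‖Es b w l F‖ ≤ C := by
  refine (Es_norm hw l F).trans ?_
  refine (Es_mono hw l _ (fun _ => C) h).trans ?_
  rw [Es_const hw]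

/-- convexity -/
lemma Es_pow {b : ℕ} {w : σ → ℕ → ℕ → ℝ} (hw : Wt b w) (l : List (σ × ℕ)) (F : (σ → ℤ) → ℝ) (hF : ∀ x, 0 ≤ F x) (n : ℕ) :
    Es b w l F ^ n ≤ Es b w l (fun x => F x ^ n) := by
  induction l generalizing F with
  | nil => exact le_rfl
  | cons s l ih =>
    simp only [Es_cons, smul_eq_mul]
    refine (Real.pow_arith_mean_le_arith_mean_pow (range b) (fun a => w s.1 s.2 a) _ (fun a _ => hw.nonneg _ _ _) (hw.sum _ _)
      (fun a _ => ?_) n).trans ?_
    · have := Es_mono hw l (fun _ => (0 : ℝ)) (fun x => F (sg s.1 ((a : ℤ) * (b : ℤ) ^ s.2) + x)) (fun x => hF _)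
      rwa [Es_const hw] at this
    · apply sum_le_sum
      intro a _
      exact mul_le_mul_of_nonneg_left (ih _ fun x => hF _) (hw.nonneg _ _ _)

/-- the real part of the average of a real function -/
lemma Es_ofReal (b : ℕ) (w : σ → ℕ → ℕ → ℝ) (l : List (σ × ℕ)) (F : (σ → ℤ) → ℝ) :
    Es b w l (fun x => ((F x : ℝ) : ℂ)) = ((Es b w l F : ℝ) : ℂ) := by
  induction l generalizing F with
  | nil => rfl
  | cons s l ih =>
    simp only [Es_cons]
    push_cast
    apply sum_congr rfl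
    intro a _
    rw [ih]
    simp

/-- a block of consecutive digits of one variable -/
def blk (j : σ) (r L : ℕ) : List (σ × ℕ) := (List.range' r L).map (fun i => (j, i))

lemma blk_zero (j : σ) (r : ℕ) : blk j r 0 = [] := rfl

lemma blk_succ (j : σ) (r L : ℕ) : blk j r (L + 1) = (j, r) :: blk j (r + 1) L := by
  unfold blk
  rw [List.range'_succ, List.map_cons]

lemma mem_blk (j : σ) (r L : ℕ) (s : σ × ℕ) : s ∈ blk j r L ↔ s.1 = j ∧ r ≤ s.2 ∧ s.2 < r + L := by
  unfold blk
  rw [List.mem_map]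
  constructor
  · rintro ⟨i, hi, rfl⟩
    rw [List.mem_range'_1] at hi
    exact ⟨rfl, hi⟩
  · rintro ⟨h1, h2, h3⟩
    exact ⟨s.2, List.mem_range'_1.2 ⟨h2, h3⟩, by ext <;> simp [h1]⟩

lemma nodup_blk (j : σ) (r L : ℕ) : (blk j r L).Nodup := by
  unfold blk
  apply List.Nodup.map
  · intro a b h
    exact (Prod.ext_iff.1 h).2
  · exact List.nodup_range'

/-- the average over a block -/
lemma Es_blk (b : ℕ) (hb : 0 < b) (w : σ → ℕ → ℕ → ℝ) (j : σ) (r L : ℕ) {E : Type} [AddCommGroup E] [Module ℝ E] (F : (σ → ℤ) → E) :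
    Es b w (blk j r L) F = ∑ u ∈ range (b ^ L), P b (w j) r L u • F (sg j ((u : ℤ) * (b : ℤ) ^ r)) := by
  induction L generalizing r F with
  | zero =>
    rw [blk_zero, Es_nil]
    simp [P, sg_zero]
  | succ L ih =>
    rw [blk_succ, Es_cons, show L + 1 = 1 + L by ring, pow_add, sum_split _ _ (by positivity), pow_one]
    apply sum_congr rfl
    intro a ha
    rw [mem_range] at ha
    simp only
    rw [ih, smul_sum]
    apply sum_congr rfl
    intro v _
    have h1 := P_split b hb (w j) r 1 L a v (by rw [pow_one]; exact ha)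
    rw [pow_one] at h1
    rw [h1, smul_smul]
    have h2 : P b (w j) r 1 a = w j r a := by
      unfold P
      rw [prod_range_one, pow_zero, Nat.div_one, add_zero, Nat.mod_eq_of_lt ha]
    rw [h2, ← sg_add]
    congr 3
    push_cast
    ring

/-- fixing all digits outside of some slots -/
lemma Es_sub {b : ℕ} {w : σ → ℕ → ℕ → ℝ} (hw : Wt b w) (l l' : List (σ × ℕ)) (hn : l'.Nodup) (hl : l' ⊆ l)
    (F : (σ → ℤ) → ℂ) (C : ℝ) (h : ∀ x, ‖Es b w l' (fun y => F (x + y))‖ ≤ C) : ‖Es b w l F‖ ≤ C := by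
  obtain ⟨l₁, h1, h2⟩ := List.subperm_iff.1 (hn.subperm hl)
  obtain ⟨l₂, h3⟩ := h2.exists_perm_append
  have h4 : l.Perm (l₂ ++ l') := (h1.symm.trans h3).trans List.perm_append_comm
  rw [Es_perm b w h4, Es_append]
  exact Es_norm_le hw l₂ _ C h

end Pool.Agent.K6.H45.MV
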