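import Pool.Agent.K6.H45.MV.Slot

set_option autoImplicit false
set_option linter.unusedSectionVars false

/-! The Weyl inequality for functions of several variables with independent random digits, whose iterated difference in
given directions is constant. -/

namespace Pool.Agent.K6.H45.MV
open Finset
open Pool.Agent.H807R2.Dav
open Pool.Agent.TH872.Sq

variable {σ : Type} [DecidableEq σ]

/-- the iterated difference of `g` in the directions of the list, with the steps `h₁, h₂, …`, is `A h₁ h₂ ⋯` -/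
def PD : List σ → ℝ → ((σ → ℤ) → ℝ) → Prop
  | [], A, g => ∀ x, g x = A
  | j :: l, A, g => ∀ h : ℤ, PD l (A * h) (fun x => g (sg j h + x) - g x)

lemma PD_shift (l : List σ) (A : ℝ) (g : (σ → ℤ) → ℝ) (h : PD l A g) (c : σ → ℤ) : PD l A (fun x => g (c + x)) := by
  induction l generalizing A g with
  | nil => exact fun x => h _
  | cons j l ih =>
    intro t
    have h1 := ih _ _ (h t)
    simp only at h1 ⊢
    have e : (fun x => g (c + (sg j t + x)) - g (c + x)) = (fun x => g (sg j t + (c + x)) - g (c + x)) := by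
      funext x
      rw [add_left_comm]
    rw [e]
    exact h1

lemma nn_neg (x : ℝ) : nn (-x) = nn x := by
  have key : ∀ y : ℝ, nn (-y) ≤ nn y := by
    intro y
    refine (nn_le _ (-(round y))).trans (le_of_eq ?_)
    unfold nn
    rw [← abs_neg]
    congr 1
    push_cast
    ring
  apply le_antisymm (key x)
  have := key (-x)
  rwa [neg_neg] at this

lemma wt_of {b : ℕ} {η : ℝ} {w : σ → ℕ → ℕ → ℝ} (hw : ∀ j, Dig b η (w j)) : Wt b w :=
  ⟨fun j => (hw j).nonneg, fun j => (hw j).sum⟩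

/-- two variables -/
lemma bilinear2 {b : ℕ} (hb : 2 ≤ b) {η : ℝ} (hη : 0 < η) {w w' : ℕ → ℕ → ℝ} (hw : Dig b η w) (hw' : Dig b η w') (i L i' J s : ℕ)
    (A B : ℕ → ℝ) (x : ℝ) (hx : ∀ g : ℕ, 0 < g → g < b ^ L → 1 / (b : ℝ) ^ J < nn (b.factorial * x * g)) :
    ‖∑ u ∈ range (b ^ L), ((P b w i L u : ℝ) : ℂ) * ∑ v ∈ range (b ^ J), ((P b w' i' J v : ℝ) : ℂ) * ee (A u + B v + x * u * v)‖ ^ (2 * s) ≤
      (1 - η) ^ L * (1 + 2 * b * (g0 b η) ^ s) ^ J := by
  obtain ⟨W, hW⟩ : ∃ W : ℕ → ℕ → ℝ, W = fun t a => if t < L then w (i + t) a else w' (i' + (t - L)) a := ⟨_, rfl⟩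
  have hWd : Dig b η W := by
    refine ⟨fun t a => ?_, fun t => ?_, fun t a => ?_⟩
    · rw [hW]; simp only; split_ifs; exacts [hw.nonneg _ _, hw'.nonneg _ _]
    · rw [hW]; simp only; split_ifs; exacts [hw.sum _, hw'.sum _]
    · rw [hW]; simp only; split_ifs; exacts [hw.le _ _, hw'.le _ _]
  have e1 : ∀ u, P b W 0 L u = P b w i L u := by
    intro u
    unfold P
    apply prod_congr rfl
    intro j hj
    rw [mem_range] at hj
    rw [hW]
    simp only [zero_add, if_pos hj]
  have e2 : ∀ v, P b W L J v = P b w' i' J v := by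
    intro v
    unfold P
    apply prod_congr rfl
    intro j _
    rw [hW]
    simp only
    rw [if_neg (by omega), Nat.add_sub_cancel_left]
  have h := bilinear hb hη hWd 0 L L J s A B x hx
  simp only [e1, e2] at h
  exact h

/-- the core of the Weyl inequality -/
theorem weyl_core {b : ℕ} (hb : 2 ≤ b) {η : ℝ} (hη : 0 < η) {w : σ → ℕ → ℕ → ℝ} (hw : ∀ j, Dig b η (w j)) (L J s : ℕ) (T : ℝ)
    (hT : (1 - η) ^ L * (1 + 2 * b * (g0 b η) ^ s) ^ J ≤ T) (hT' : (1 - η) ^ L ≤ T) (j₀ : σ) (r₀ : ℕ) (js : List (σ × ℕ)) :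
    ∀ (p : σ × ℕ) (A : ℝ) (ψ : (σ → ℤ) → ℝ), PD ((p :: js).map Prod.fst ++ [j₀]) A ψ →
    (∀ g : ℕ, 0 < g → g < b ^ (L * (js.length + 1)) →
      1 / (b : ℝ) ^ J < nn (b.factorial * (A * (b : ℝ) ^ (((p :: js).map Prod.snd).sum + r₀)) * g)) →
    ‖Es b w ((p :: js).flatMap (fun q => blk q.1 q.2 L) ++ blk j₀ r₀ J) (fun x => ee (ψ x))‖ ^ (2 ^ (js.length + 1) * s) ≤
      ((js.length : ℝ) + 1) * T := by
  have hb0 : 0 < b := by omega
  have hW := wt_of hw
  induction js with
  | nil =>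
    intro p A ψ hψ hg
    obtain ⟨j, r⟩ := p
    simp only [List.map_cons, List.map_nil, List.length_nil, List.sum_cons, List.sum_nil, add_zero, zero_add, mul_one, pow_one,
      List.flatMap_cons, List.flatMap_nil, List.append_nil, List.cons_append, List.nil_append, Nat.cast_zero] at hψ hg ⊢
    rw [one_mul]
    refine le_trans ?_ hT
    rw [Es_append, Es_blk b hb0]
    simp only [Es_blk b hb0]
    have e1 : ∀ u v : ℕ, ψ (sg j ((u : ℤ) * (b : ℤ) ^ r) + sg j₀ ((v : ℤ) * (b : ℤ) ^ r₀)) =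
        ψ (sg j ((u : ℤ) * (b : ℤ) ^ r)) + (ψ (sg j₀ ((v : ℤ) * (b : ℤ) ^ r₀)) - ψ 0) + (A * (b : ℝ) ^ (r + r₀)) * u * v := by
      intro u v
      have h1 := hψ ((u : ℤ) * (b : ℤ) ^ r) ((v : ℤ) * (b : ℤ) ^ r₀) 0
      simp only [add_zero] at h1
      push_cast at h1
      have h2 : (b : ℝ) ^ (r + r₀) = (b : ℝ) ^ r * (b : ℝ) ^ r₀ := pow_add _ _ _
      rw [h2]
      linarith
    simp only [e1, Complex.real_smul]
    have := bilinear2 hb hη (hw j) (hw j₀) r L r₀ J s (fun u => ψ (sg j ((u : ℤ) * (b : ℤ) ^ r)))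
      (fun v => ψ (sg j₀ ((v : ℤ) * (b : ℤ) ^ r₀)) - ψ 0) (A * (b : ℝ) ^ (r + r₀)) hg
    exact this
  | cons p' js ih =>
    intro p A ψ hψ hg
    obtain ⟨j, r⟩ := p
    obtain ⟨rest, hrest⟩ : ∃ rest, rest = (p' :: js).flatMap (fun q => blk q.1 q.2 L) ++ blk j₀ r₀ J := ⟨_, rfl⟩
    obtain ⟨R, hR⟩ : ∃ R : Finset ℕ, R = range (b ^ L) := ⟨_, rfl⟩
    obtain ⟨pr, hpr⟩ : ∃ pr : ℕ → ℝ, pr = fun u => P b (w j) r L u := ⟨_, rfl⟩
    obtain ⟨G, hG⟩ : ∃ G : ℕ → (σ → ℤ) → ℝ, G = fun (u : ℕ) (y : σ → ℤ) => ψ (sg j ((u : ℤ) * (b : ℤ) ^ r) + y) := ⟨_, rfl⟩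
    have hp0 : ∀ u, 0 ≤ pr u := fun u => by rw [hpr]; exact P_nonneg (hw j) r L u
    have hp1 : ∑ u ∈ R, pr u = 1 := by rw [hpr, hR]; exact P_sum hb0 (hw j) r L
    have hple : ∀ u, pr u ≤ (1 - η) ^ L := fun u => by rw [hpr]; exact P_le (hw j) r L u
    obtain ⟨H, hH⟩ : ∃ H : (σ → ℤ) → ℂ, H = fun y => ∑ u ∈ R, pr u • ee (G u y) := ⟨_, rfl⟩
    have e0 : Es b w (((j, r) :: p' :: js).flatMap (fun q => blk q.1 q.2 L) ++ blk j₀ r₀ J) (fun x => ee (ψ x)) = Es b w rest H := by
      rw [List.flatMap_cons, List.append_assoc, ← hrest, Es_append, Es_blk b hb0, hH, Es_sum]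
      rw [hR]
      apply sum_congr rfl
      intro u _
      rw [Es_smul, hpr, hG]
    obtain ⟨E, hE⟩ : ∃ E : ℕ → ℕ → ℝ, E = fun u u' => ‖Es b w rest (fun y => ee (G u y - G u' y))‖ := ⟨_, rfl⟩
    have hE0 : ∀ u u', 0 ≤ E u u' := fun u u' => by rw [hE]; exact norm_nonneg _
    have hE1 : ∀ u u', E u u' ≤ 1 := fun u u' => by
      rw [hE]
      exact Es_norm_le hW rest _ 1 fun x => by rw [norm_ee]
    -- Cauchy
    have h1 : ‖Es b w rest H‖ ^ 2 ≤ ∑ u ∈ R, pr u * ∑ u' ∈ R, pr u' * E u u' := by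
      have f1 : ‖Es b w rest H‖ ^ 2 ≤ Es b w rest (fun y => ‖H y‖ ^ 2) := by
        refine (pow_le_pow_left₀ (norm_nonneg _) (Es_norm hW rest H) 2).trans ?_
        exact Es_pow hW rest _ (fun x => norm_nonneg _) 2
      have f2 : ((Es b w rest (fun y => ‖H y‖ ^ 2) : ℝ) : ℂ) =
          ∑ u ∈ R, ∑ u' ∈ R, (pr u * pr u') • Es b w rest (fun y => ee (G u y - G u' y)) := by
        rw [← Es_ofReal]
        have g1 : (fun y => ((‖H y‖ ^ 2 : ℝ) : ℂ)) = fun y => ∑ u ∈ R, ∑ u' ∈ R, (pr u * pr u') • ee (G u y - G u' y) := by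
          funext y
          rw [Complex.ofReal_pow, ← Complex.mul_conj', hH, map_sum, sum_mul_sum]
          apply sum_congr rfl
          intro u _
          apply sum_congr rfl
          intro u' _
          rw [Complex.real_smul, Complex.real_smul, Complex.real_smul, map_mul, Complex.conj_ofReal,
            Pool.Agent.H373R2.T7.conj_ee, sub_eq_add_neg, ee_add]
          push_cast
          ring
        rw [g1, Es_sum]
        apply sum_congr rfl
        intro u _
        rw [Es_sum]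
        apply sum_congr rfl
        intro u' _
        rw [Es_smul]
      have f3 : 0 ≤ Es b w rest (fun y => ‖H y‖ ^ 2) := (sq_nonneg _).trans f1
      refine f1.trans ?_
      rw [← Real.norm_of_nonneg f3, ← Complex.norm_real, f2]
      refine (norm_sum_le _ _).trans ?_
      apply sum_le_sum
      intro u _
      refine (norm_sum_le _ _).trans (le_of_eq ?_)
      rw [mul_sum]
      apply sum_congr rfl
      intro u' _
      rw [norm_smul, Real.norm_of_nonneg (mul_nonneg (hp0 u) (hp0 u')), hE, mul_assoc]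
    -- the induction hypothesis
    have h2 : ∀ u ∈ R, ∀ u' ∈ R, u ≠ u' → E u u' ^ (2 ^ (js.length + 1) * s) ≤ ((js.length : ℝ) + 1) * T := by
      intro u hu u' hu' hne
      rw [hR, mem_range] at hu hu'
      rw [hE]
      simp only
      rw [hrest]
      apply ih p' (A * (((u : ℤ) - u') * (b : ℤ) ^ r : ℤ)) (fun y => G u y - G u' y)
      · have q1 := hψ (((u : ℤ) - u') * (b : ℤ) ^ r)
        have q2 := PD_shift _ _ _ q1 (sg j ((u' : ℤ) * (b : ℤ) ^ r))
        simp only at q2
        have q3 : (fun x => ψ (sg j (((u : ℤ) - u') * (b : ℤ) ^ r) + (sg j ((u' : ℤ) * (b : ℤ) ^ r) + x)) -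
            ψ (sg j ((u' : ℤ) * (b : ℤ) ^ r) + x)) = (fun y => G u y - G u' y) := by
          funext y
          rw [hG]
          simp only
          rw [← add_assoc, ← sg_add]
          congr 4
          ring
        rw [q3] at q2
        exact q2
      · intro g hg0 hgL
        rcases lt_or_gt_of_ne hne with h | h
        · have q1 := hg ((u' - u) * g) (Nat.mul_pos (by omega) hg0) (by
            rw [List.length_cons]
            calc (u' - u) * g < b ^ L * b ^ (L * (js.length + 1)) := by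
                  apply Nat.mul_lt_mul'' (by omega) hgL
              _ = b ^ (L * (js.length + 1 + 1)) := by rw [← pow_add]; congr 1; ring)
          refine lt_of_lt_of_eq q1 ?_
          rw [← nn_neg]
          congr 1
          rw [Nat.cast_mul, Nat.cast_sub h.le, List.map_cons, List.sum_cons, pow_add, pow_add, pow_add]
          push_cast
          ring
        · have q1 := hg ((u - u') * g) (Nat.mul_pos (by omega) hg0) (by
            rw [List.length_cons]
            calc (u - u') * g < b ^ L * b ^ (L * (js.length + 1)) := by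
                  apply Nat.mul_lt_mul'' (by omega) hgL
              _ = b ^ (L * (js.length + 1 + 1)) := by rw [← pow_add]; congr 1; ring)
          refine lt_of_lt_of_eq q1 ?_
          congr 1
          rw [Nat.cast_mul, Nat.cast_sub h.le, List.map_cons, List.sum_cons, pow_add, pow_add, pow_add]
          push_cast
          ring
    -- together
    obtain ⟨N, hN⟩ : ∃ N, N = 2 ^ (js.length + 1) * s := ⟨_, rfl⟩
    rw [← hN] at h2
    obtain ⟨T', hT''⟩ : ∃ T' : ℝ, T' = ((js.length : ℝ) + 1) * T := ⟨_, rfl⟩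
    rw [← hT''] at h2
    have hη1 := eta_le (hw j)
    have hT0 : 0 ≤ T := (pow_nonneg (by linarith) _).trans hT'
    have hT'0 : 0 ≤ T' := by rw [hT'']; positivity
    have h3 : ∀ u ∈ R, ∑ u' ∈ R, pr u' * E u u' ^ N ≤ pr u + T' := by
      intro u hu
      rw [← add_sum_erase _ _ hu]
      apply add_le_add
      · exact mul_le_of_le_one_right (hp0 u) (pow_le_one₀ (hE0 _ _) (hE1 _ _))
      · calc ∑ u' ∈ R.erase u, pr u' * E u u' ^ N ≤ ∑ u' ∈ R.erase u, pr u' * T' := by
              apply sum_le_sum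
              intro u' hu'
              rw [mem_erase] at hu'
              exact mul_le_mul_of_nonneg_left (h2 u hu u' hu'.2 (fun h => hu'.1 h.symm)) (hp0 u')
          _ ≤ ∑ u' ∈ R, pr u' * T' := sum_le_sum_of_subset_of_nonneg (erase_subset _ _) fun u' _ _ => mul_nonneg (hp0 u') hT'0
          _ = T' := by rw [← sum_mul, hp1, one_mul]
    rw [e0]
    have e9 : 2 ^ ((p' :: js).length + 1) * s = 2 * N := by rw [hN, List.length_cons]; ring
    rw [e9, pow_mul]
    refine (pow_le_pow_left₀ (sq_nonneg _) h1 N).trans ?_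
    refine (Real.pow_arith_mean_le_arith_mean_pow _ _ _ (fun u _ => hp0 u) hp1
      (fun u _ => sum_nonneg fun u' _ => mul_nonneg (hp0 u') (hE0 _ _)) N).trans ?_
    calc ∑ u ∈ R, pr u * (∑ u' ∈ R, pr u' * E u u') ^ N ≤ ∑ u ∈ R, pr u * ((1 - η) ^ L + T') := by
          apply sum_le_sum
          intro u hu
          apply mul_le_mul_of_nonneg_left _ (hp0 u)
          refine (Real.pow_arith_mean_le_arith_mean_pow _ _ _ (fun u _ => hp0 u) hp1 (fun u' _ => hE0 _ _) N).trans ?_
          exact (h3 u hu).trans (add_le_add (hple u) le_rfl)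
      _ = (1 - η) ^ L + T' := by rw [← sum_mul, hp1, one_mul]
      _ ≤ (((p' :: js).length : ℝ) + 1) * T := by
          rw [hT'', List.length_cons]
          push_cast
          linarith

end Pool.Agent.K6.H45.MV
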